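import Mathlib
import Pool.Agent.Y888.WD.Near

/-! The expansion of `f₀` at the integers, with complex coefficients. -/

set_option autoImplicit false

open Filter Topology Metric Set

namespace Pool.Agent.P8H70.WD

open Pool.Agent.H723R2.LSW Pool.Agent.Y282.WD Pool.Agent.Y888.WD

/-- the sign of the second Taylor coefficient of `f₀` at `m` -/
noncomputable def sg (m : ℤ) : ℂ := if (0 ≤ m ↔ m % 2 = 0) then 1 else -1

theorem sg_sq (m : ℤ) : sg m ^ 2 = 1 := by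
  unfold sg; split_ifs <;> norm_num

theorem sg_norm (m : ℤ) : ‖sg m‖ = 1 := by
  unfold sg; split_ifs <;> simp

theorem cos_int (m : ℤ) : Complex.cos (Real.pi * (m : ℂ)) = if m % 2 = 0 then 1 else -1 := by
  rcases Int.even_or_odd' m with ⟨k, rfl | rfl⟩
  · rw [if_pos (by omega)]
    have h := Complex.cos_int_mul_two_pi k
    rw [← h]; congr 1; push_cast; ring
  · rw [if_neg (by omega)]
    have h := Complex.cos_int_mul_two_pi_add_pi k
    rw [← h]; congr 1; push_cast; ring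

theorem sg_bt (m : ℤ) : sg m * (bt m : ℂ) =
    Complex.cos (Real.pi * (m : ℂ)) * ((m : ℂ) + 1 / 2) * (Real.pi ^ 2 / 4) := by
  rw [cos_int]
  unfold sg bt
  by_cases h0 : 0 ≤ m
  · have h1 : |(m : ℝ) + 1 / 2| = (m : ℝ) + 1 / 2 := by
      apply abs_of_nonneg
      have : (0 : ℝ) ≤ m := by exact_mod_cast h0
      linarith
    rw [h1]
    by_cases h2 : m % 2 = 0
    · rw [if_pos (by tauto), if_pos h2]; push_cast; ring
    · rw [if_neg (by tauto), if_neg h2]; push_cast; ring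
  · have h1 : |(m : ℝ) + 1 / 2| = -((m : ℝ) + 1 / 2) := by
      apply abs_of_nonpos
      have : (m : ℝ) ≤ -1 := by
        have : m ≤ -1 := by omega
        exact_mod_cast this
      linarith
    rw [h1]
    by_cases h2 : m % 2 = 0
    · rw [if_neg (by tauto), if_pos h2]; push_cast; ring
    · rw [if_pos (by tauto), if_neg h2]; push_cast; ring

/-- the expansion -/
theorem key' (m : ℤ) (h : ℂ) : f₀ (m + h) - (T m : ℂ) =
      fA h + Complex.cos (Real.pi * (m : ℂ)) / 2 * fB h +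
        Complex.cos (Real.pi * (m : ℂ)) / 2 * ((m : ℂ) + 1 / 2) * fD h := by
  have hsm : Complex.sin (Real.pi * (m : ℂ)) = 0 := by
    rw [mul_comm]; exact Complex.sin_int_mul_pi m
  obtain ⟨ε, hcm⟩ : ∃ ε : ℂ, Complex.cos (Real.pi * (m : ℂ)) = ε := ⟨_, rfl⟩
  have hε2 : ε ^ 2 = 1 := by
    rw [← hcm, cos_int]; split_ifs <;> norm_num
  have hT : (T m : ℂ) = m / 2 + (m + 1 / 2) * ((1 - ε) / 2) := by
    rw [← f₀_int]; unfold f₀; rw [hsm, hcm]; ring
  have e1 : ∀ h : ℂ, Complex.cos (Real.pi * (m + h)) = ε * Complex.cos (Real.pi * h) := by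
    intro h
    rw [mul_add, Complex.cos_add, hsm, hcm]; ring
  have e2 : ∀ h : ℂ, Complex.sin (Real.pi * (m + h)) = ε * Complex.sin (Real.pi * h) := by
    intro h
    rw [mul_add, Complex.sin_add, hsm, hcm]; ring
  rw [hcm]
  unfold f₀
  rw [hT, e1, e2]
  simp only [fA, fB, fD]
  linear_combination (-1 / (Real.pi : ℂ) * Complex.cos (Real.pi * h) *
    Complex.sin (Real.pi * h)) * hε2

theorem near' : ∃ C : ℝ, 1 ≤ C ∧ ∀ (m : ℤ) (h : ℂ), ‖h‖ ≤ 1 →
    ‖f₀ (m + h) - (T m : ℂ) - sg m * bt m * h ^ 2‖ ≤ C * ‖h‖ ^ 3 * (1 + bt m * ‖h‖) := by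
  obtain ⟨C, hC0, hC⟩ := bds
  have hpp := Real.pi_pos
  refine ⟨2 * C ^ 2 + 2 * Real.pi * C + 1, by nlinarith [mul_nonneg hpp.le hC0, sq_nonneg C],
    fun m h hh => ?_⟩
  obtain ⟨ε, hε, hcm⟩ : ∃ ε : ℂ, ‖ε‖ = 1 ∧ Complex.cos (Real.pi * (m : ℂ)) = ε := by
    refine ⟨_, ?_, rfl⟩
    rw [cos_int]; split_ifs <;> simp
  rw [sg_bt, key', hcm]
  obtain ⟨-, bA, bB, bD⟩ := hC h hh
  have hb : bt m = Real.pi ^ 2 / 4 * ‖(m : ℂ) + 1 / 2‖ := by rw [nm]; rfl
  have hb' : ‖(m : ℂ) + 1 / 2‖ = 4 / Real.pi ^ 2 * bt m := by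
    rw [hb]
    field_simp
  have hb0 : 0 ≤ bt m := by rw [hb]; positivity
  have e1 : fA h + ε / 2 * fB h + ε / 2 * ((m : ℂ) + 1 / 2) * fD h -
      ε * ((m : ℂ) + 1 / 2) * (Real.pi ^ 2 / 4) * h ^ 2 = fA h + ε / 2 * fB h +
        ε / 2 * ((m : ℂ) + 1 / 2) * (fD h - Real.pi ^ 2 / 2 * h ^ 2) := by ring
  rw [e1]
  have e3 : ‖ε / 2‖ = 1 / 2 := by rw [norm_div, hε]; norm_num
  have h0 : 0 ≤ ‖h‖ := norm_nonneg h
  calc ‖fA h + ε / 2 * fB h + ε / 2 * ((m : ℂ) + 1 / 2) * (fD h - Real.pi ^ 2 / 2 * h ^ 2)‖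
      ≤ ‖fA h‖ + ‖ε / 2 * fB h‖ +
        ‖ε / 2 * ((m : ℂ) + 1 / 2) * (fD h - Real.pi ^ 2 / 2 * h ^ 2)‖ := norm_add₃_le
    _ = ‖fA h‖ + 1 / 2 * ‖fB h‖ +
        1 / 2 * (4 / Real.pi ^ 2 * bt m) * ‖fD h - Real.pi ^ 2 / 2 * h ^ 2‖ := by
        rw [norm_mul, norm_mul, norm_mul, e3, hb']
    _ ≤ 2 * C ^ 2 * ‖h‖ ^ 3 + 1 / 2 * (Real.pi * C * ‖h‖ ^ 3) +
        1 / 2 * (4 / Real.pi ^ 2 * bt m) * (Real.pi ^ 3 * C * ‖h‖ ^ 4) := by gcongr
    _ = (2 * C ^ 2 + 1 / 2 * (Real.pi * C)) * ‖h‖ ^ 3 +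
        2 * Real.pi * C * ‖h‖ ^ 3 * (bt m * ‖h‖) := by
        field_simp
        ring
    _ ≤ (2 * C ^ 2 + 2 * Real.pi * C + 1) * ‖h‖ ^ 3 * (1 + bt m * ‖h‖) := by
        have h3 : 0 ≤ ‖h‖ ^ 3 := by positivity
        have h4 : 0 ≤ ‖h‖ ^ 3 * (bt m * ‖h‖) := by positivity
        have h5 : 0 ≤ Real.pi * C := by positivity
        nlinarith [mul_nonneg h3 h5, mul_nonneg h4 h5, mul_nonneg h4 (sq_nonneg C)]

/-- the function `f₀ (m + h) - T m` -/
noncomputable def Q (m : ℤ) (h : ℂ) : ℂ := f₀ (m + h) - (T m : ℂ)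

theorem Q_diff (m : ℤ) : Differentiable ℂ (Q m) :=
  (f₀_differentiable.comp ((differentiable_const _).add differentiable_id)).sub_const _

theorem Q_zero (m : ℤ) : Q m 0 = 0 := by
  unfold Q; rw [add_zero, f₀_int, sub_self]

theorem Q_deriv (m : ℤ) : deriv (Q m) 0 = 0 := by
  have h1 : HasDerivAt f₀ 0 ((m : ℂ) + 0) := by rw [add_zero]; exact f₀_deriv_int m
  have h2 : HasDerivAt (fun h : ℂ => (m : ℂ) + h) 1 0 := by
    simpa using (hasDerivAt_id (0 : ℂ)).const_add (m : ℂ)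
  have h3 := (h1.comp (0 : ℂ) h2).sub_const ((T m : ℂ))
  have h4 : HasDerivAt (Q m) (0 * 1) 0 := h3
  simpa using h4.deriv

/-- the relative error `E` of the quadratic approximation -/
noncomputable def E (m : ℤ) (h : ℂ) : ℂ := dslope (dslope (Q m) 0) 0 h / (sg m * bt m) - 1

theorem E_diff (m : ℤ) : Differentiable ℂ (E m) := by
  have hG : DifferentiableOn ℂ (dslope (Q m) 0) univ :=
    (Complex.differentiableOn_dslope univ_mem).2 (Q_diff m).differentiableOn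
  have hH : DifferentiableOn ℂ (dslope (dslope (Q m) 0) 0) univ :=
    (Complex.differentiableOn_dslope univ_mem).2 hG
  exact ((differentiableOn_univ.1 hH).div_const _).sub_const _

theorem Q_eq (m : ℤ) (h : ℂ) : Q m h = h ^ 2 * dslope (dslope (Q m) 0) 0 h := by
  have h1 := sub_smul_dslope (Q m) 0 h
  have h2 := sub_smul_dslope (dslope (Q m) 0) 0 h
  rw [Q_zero, sub_zero, sub_zero, smul_eq_mul] at h1
  rw [dslope_same, Q_deriv, sub_zero, sub_zero, smul_eq_mul] at h2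
  rw [← h1, ← h2]; ring

theorem sb_ne {m : ℤ} (hb : 0 < bt m) : sg m * (bt m : ℂ) ≠ 0 := by
  refine mul_ne_zero ?_ (by exact_mod_cast hb.ne')
  intro h
  have := sg_norm m
  rw [h] at this
  simp at this

theorem f₀_eq (m : ℤ) (hb : 0 < bt m) (z : ℂ) :
    f₀ z - (T m : ℂ) = sg m * bt m * (z - m) ^ 2 * (1 + E m (z - m)) := by
  have h1 := Q_eq m (z - m)
  have h2 : Q m (z - m) = f₀ z - (T m : ℂ) := by unfold Q; rw [add_sub_cancel]
  rw [← h2, h1]
  unfold E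
  have := sb_ne hb
  generalize dslope (dslope (Q m) 0) 0 (z - m) = R
  generalize sg m * (bt m : ℂ) = c at *
  field_simp
  ring

/-- the relative error is small, with a small Lipschitz constant -/
theorem expand : ∃ C : ℝ, 1 ≤ C ∧
    (∀ (m : ℤ) (h : ℂ), 12 ≤ bt m → ‖h‖ ≤ 6 / bt m → ‖E m h‖ ≤ C / bt m ^ 2) ∧
    ∀ (m : ℤ) (h h' : ℂ), 12 ≤ bt m → ‖h‖ ≤ 6 / bt m → ‖h'‖ ≤ 6 / bt m →
      ‖E m h - E m h'‖ ≤ C / bt m * ‖h - h'‖ := by
  obtain ⟨C, hC1, hC⟩ := near'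
  have hC0 : 0 < C := by linarith
  have key : ∀ (m : ℤ) (h : ℂ), 12 ≤ bt m → ‖h‖ ≤ 12 / bt m → ‖E m h‖ ≤ 156 * C / bt m ^ 2 := by
    intro m h hb hh
    have hb0 : 0 < bt m := by linarith
    have h12 : 12 / bt m ≤ 1 := by rw [div_le_one hb0]; exact hb
    have main : ∀ h : ℂ, h ≠ 0 → ‖h‖ ≤ 12 / bt m → ‖E m h‖ ≤ 156 * C / bt m ^ 2 := by
      intro h h0 hh
      have hn : 0 < ‖h‖ := norm_pos_iff.2 h0
      have hsb := sb_ne hb0
      have e1 : E m h = (f₀ (m + h) - (T m : ℂ) - sg m * bt m * h ^ 2) / (sg m * bt m * h ^ 2) := by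
        have h1 := Q_eq m h
        have h2 : Q m h = f₀ (m + h) - (T m : ℂ) := rfl
        rw [← h2, h1]
        unfold E
        clear h1 h2
        generalize dslope (dslope (Q m) 0) 0 h = R
        generalize sg m * (bt m : ℂ) = c at *
        field_simp
      rw [e1, norm_div]
      have e2 : ‖sg m * (bt m : ℂ) * h ^ 2‖ = bt m * ‖h‖ ^ 2 := by
        rw [norm_mul, norm_mul, sg_norm, norm_pow, Complex.norm_real, Real.norm_of_nonneg hb0.le,
          one_mul]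
      rw [e2, div_le_div_iff₀ (by positivity) (by positivity)]
      have h3 := hC m h (hh.trans h12)
      have h4 : bt m * ‖h‖ ≤ 12 := by
        rw [le_div_iff₀ hb0] at hh
        linarith
      calc ‖f₀ (m + h) - (T m : ℂ) - sg m * bt m * h ^ 2‖ * bt m ^ 2
          ≤ C * ‖h‖ ^ 3 * (1 + bt m * ‖h‖) * bt m ^ 2 := by gcongr
        _ = C * (bt m * ‖h‖) * (1 + bt m * ‖h‖) * (bt m * ‖h‖ ^ 2) := by ring
        _ ≤ C * 12 * (1 + 12) * (bt m * ‖h‖ ^ 2) := by gcongr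
        _ = 156 * C * (bt m * ‖h‖ ^ 2) := by ring
    by_cases h0 : h = 0
    · subst h0
      have h1 : Tendsto (fun w => ‖E m w‖) (𝓝[≠] (0 : ℂ)) (𝓝 ‖E m 0‖) :=
        ((E_diff m).continuous.norm.tendsto 0).mono_left nhdsWithin_le_nhds
      refine le_of_tendsto h1 ?_
      have h2 : ∀ᶠ w in 𝓝 (0 : ℂ), ‖w‖ ≤ 12 / bt m := by
        have : closedBall (0 : ℂ) (12 / bt m) ∈ 𝓝 (0 : ℂ) := closedBall_mem_nhds _ (by positivity)
        filter_upwards [this] with w hw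
        simpa using hw
      filter_upwards [self_mem_nhdsWithin, nhdsWithin_le_nhds h2] with w hw1 hw2
      exact main w hw1 hw2
    · exact main h h0 hh
  refine ⟨156 * C, by linarith, fun m h hb hh => key m h hb (hh.trans (by
    have : 0 < bt m := by linarith
    gcongr; norm_num)), fun m h h' hb hh hh' => ?_⟩
  have hb0 : 0 < bt m := by linarith
  have hder : ∀ w ∈ closedBall (0 : ℂ) (6 / bt m), ‖deriv (E m) w‖ ≤ 156 * C / bt m := by
    intro w hw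
    rw [mem_closedBall, dist_zero_right] at hw
    have h1 := Complex.norm_deriv_le_of_forall_mem_sphere_norm_le (c := w) (R := 6 / bt m)
      (C := 156 * C / bt m ^ 2) (f := E m) (by positivity) (E_diff m).diffContOnCl (by
        intro z hz
        rw [mem_sphere, dist_eq_norm] at hz
        refine key m z hb ?_
        calc ‖z‖ = ‖(z - w) + w‖ := by rw [sub_add_cancel]
          _ ≤ ‖z - w‖ + ‖w‖ := norm_add_le _ _
          _ ≤ 6 / bt m + 6 / bt m := by rw [hz]; gcongr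
          _ = 12 / bt m := by ring)
    refine h1.trans ?_
    rw [div_div_eq_mul_div, div_le_div_iff₀ (by norm_num) hb0]
    have e : 156 * C / bt m ^ 2 * bt m * bt m = 156 * C := by field_simp
    rw [e]
    linarith
  have h1 := (convex_closedBall (0 : ℂ) (6 / bt m)).norm_image_sub_le_of_norm_deriv_le
    (f := E m) (C := 156 * C / bt m) (fun z _ => (E_diff m) z) hder
    (show h' ∈ closedBall (0 : ℂ) (6 / bt m) by simpa using hh')
    (show h ∈ closedBall (0 : ℂ) (6 / bt m) by simpa using hh)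
  exact h1

end Pool.Agent.P8H70.WD
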