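import Mathlib
import Pool.Agent.P8H70.WD.Exp
import Pool.Agent.Y151.WD.Tail

/-! Böttcher coordinates along a wandering orbit of `f₀`: definition, functional equation. -/

set_option autoImplicit false

open Filter Topology Metric Set

namespace Pool.Agent.P8H70.WD

open Pool.Agent.H723R2.LSW Pool.Agent.Y282.WD

/-- the constants -/
structure HE (C : ℝ) : Prop where
  one : 1 ≤ C
  e1 : ∀ (m : ℤ) (h : ℂ), 12 ≤ bt m → ‖h‖ ≤ 6 / bt m → ‖E m h‖ ≤ C / bt m ^ 2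
  e2 : ∀ (m : ℤ) (h h' : ℂ), 12 ≤ bt m → ‖h‖ ≤ 6 / bt m → ‖h'‖ ≤ 6 / bt m →
      ‖E m h - E m h'‖ ≤ C / bt m * ‖h - h'‖

/-- all the coefficients along the orbit of `n` are large -/
def Tl (C : ℝ) (n : ℤ) : Prop := ∀ i : ℕ, 100 * C ≤ bt (T^[i] n)

/-- the points whose orbits stay within twice the limiting radii -/
def K (n : ℤ) : Set ℂ := {z | ∀ i : ℕ, ‖f₀^[i] z - ((T^[i] n : ℤ) : ℂ)‖ ≤ 2 * rho (T^[i] n)}

/-- the size of the relative errors -/
noncomputable def al (C : ℝ) (m : ℤ) : ℝ := 2 * C / bt m ^ 2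

noncomputable def dl (C : ℝ) (n : ℤ) : ℝ := ∑' i : ℕ, al C (T^[i] n) / 2 ^ (i + 1)

noncomputable def F (n : ℤ) (i : ℕ) (z : ℂ) : ℂ :=
  1 + E (T^[i] n) (f₀^[i] z - ((T^[i] n : ℤ) : ℂ))

noncomputable def g (n : ℤ) (i : ℕ) (z : ℂ) : ℂ := Complex.log (F n i z) / 2 ^ (i + 1)

noncomputable def S (n : ℤ) (z : ℂ) : ℂ := ∑' i : ℕ, g n i z

/-- the Böttcher coordinate -/
noncomputable def B (n : ℤ) (z : ℂ) : ℂ := (z - n) / rho n * Complex.exp (S n z)

theorem hT : S_TAIL := Pool.Agent.Y151.WD.t_TAIL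

theorem rho_pos (n : ℤ) : 0 < rho n := (hT.2 n).1

theorem bt0 (n : ℤ) : 0 < bt n := by linarith [(hT.1 n).1]

theorem K_iter {n : ℤ} {z : ℂ} (hz : z ∈ K n) (j : ℕ) : f₀^[j] z ∈ K (T^[j] n) := by
  intro i
  rw [← Function.iterate_add_apply, ← Function.iterate_add_apply]
  exact hz (i + j)

theorem K_step {n : ℤ} {z : ℂ} (hz : z ∈ K n) : f₀ z ∈ K (T n) := K_iter hz 1

theorem Tl_iter {C : ℝ} {n : ℤ} (h : Tl C n) (j : ℕ) : Tl C (T^[j] n) := by
  intro i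
  rw [← Function.iterate_add_apply]
  exact h (i + j)

theorem Tl_step {C : ℝ} {n : ℤ} (h : Tl C n) : Tl C (T n) := Tl_iter h 1

theorem al_nonneg {C : ℝ} (hC : HE C) (m : ℤ) : 0 ≤ al C m := by
  have := hC.one
  unfold al; positivity

theorem al_le {C : ℝ} (hC : HE C) {m : ℤ} (h : 100 * C ≤ bt m) : al C m ≤ 1 / 1000 := by
  have := hC.one
  have hb := bt0 m
  unfold al
  rw [div_le_iff₀ (by positivity)]
  nlinarith

theorem w_le {n : ℤ} {z : ℂ} (hz : z ∈ K n) (i : ℕ) :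
    ‖f₀^[i] z - ((T^[i] n : ℤ) : ℂ)‖ ≤ 6 / bt (T^[i] n) := by
  refine (hz i).trans ?_
  have h1 := (hT.2 (T^[i] n)).2.2.2
  rw [le_div_iff₀ (bt0 _)]
  linarith

theorem E_le {C : ℝ} (hC : HE C) {n : ℤ} (hn : Tl C n) {z : ℂ} (hz : z ∈ K n) (i : ℕ) :
    ‖E (T^[i] n) (f₀^[i] z - ((T^[i] n : ℤ) : ℂ))‖ ≤ al C (T^[i] n) / 2 := by
  have h0 := hC.one
  refine (hC.e1 _ _ (by linarith [hn i]) (w_le hz i)).trans (le_of_eq ?_)
  unfold al; ring

theorem E_half {C : ℝ} (hC : HE C) {n : ℤ} (hn : Tl C n) {z : ℂ} (hz : z ∈ K n) (i : ℕ) :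
    ‖E (T^[i] n) (f₀^[i] z - ((T^[i] n : ℤ) : ℂ))‖ ≤ 1 / 2 := by
  have h1 := E_le hC hn hz i
  have h2 := al_le hC (hn i)
  linarith

theorem F_ne {C : ℝ} (hC : HE C) {n : ℤ} (hn : Tl C n) {z : ℂ} (hz : z ∈ K n) (i : ℕ) :
    F n i z ≠ 0 := by
  intro h
  have h1 := E_half hC hn hz i
  have h2 : E (T^[i] n) (f₀^[i] z - ((T^[i] n : ℤ) : ℂ)) = -1 := by
    unfold F at h
    linear_combination h
  rw [h2, norm_neg, norm_one] at h1
  norm_num at h1

theorem F_slit {C : ℝ} (hC : HE C) {n : ℤ} (hn : Tl C n) {z : ℂ} (hz : z ∈ K n) (i : ℕ) :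
    F n i z ∈ Complex.slitPlane := by
  have h1 := E_half hC hn hz i
  exact Complex.mem_slitPlane_of_norm_lt_one (lt_of_le_of_lt h1 (by norm_num))

theorem g_le {C : ℝ} (hC : HE C) {n : ℤ} (hn : Tl C n) {z : ℂ} (hz : z ∈ K n) (i : ℕ) :
    ‖g n i z‖ ≤ al C (T^[i] n) / 2 ^ (i + 1) := by
  unfold g F
  rw [norm_div]
  have h1 := Complex.norm_log_one_add_half_le_self (E_half hC hn hz i)
  have h2 := E_le hC hn hz i
  have h3 := al_nonneg hC (T^[i] n)
  have h4 : ‖(2 : ℂ) ^ (i + 1)‖ = 2 ^ (i + 1) := by rw [norm_pow]; norm_num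
  rw [h4]
  gcongr
  linarith

theorem summ_geo : Summable (fun i : ℕ => (1 / 1000 : ℝ) / 2 ^ (i + 1)) := by
  refine (summable_geometric_two' (1 / 1000 : ℝ)).congr fun i => ?_
  rw [pow_succ]; ring

theorem tsum_geo : ∑' i : ℕ, (1 / 1000 : ℝ) / 2 ^ (i + 1) = 1 / 1000 := by
  refine Eq.trans (tsum_congr fun i => ?_) (tsum_geometric_two' (1 / 1000 : ℝ))
  rw [pow_succ]; ring

theorem summ_al {C : ℝ} (hC : HE C) {n : ℤ} (hn : Tl C n) :
    Summable (fun i : ℕ => al C (T^[i] n) / 2 ^ (i + 1)) := by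
  refine Summable.of_nonneg_of_le (fun i => ?_) (fun i => ?_) summ_geo
  · have := al_nonneg hC (T^[i] n)
    positivity
  · have := al_le hC (hn i)
    gcongr

theorem dl_nonneg {C : ℝ} (hC : HE C) (n : ℤ) : 0 ≤ dl C n :=
  tsum_nonneg fun i => by
    have := al_nonneg hC (T^[i] n)
    positivity

theorem dl_le {C : ℝ} (hC : HE C) {n : ℤ} (hn : Tl C n) : dl C n ≤ 1 / 1000 := by
  rw [← tsum_geo]
  refine (summ_al hC hn).tsum_le_tsum (fun i => ?_) summ_geo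
  have := al_le hC (hn i)
  gcongr

theorem dl_rec {C : ℝ} (hC : HE C) {n : ℤ} (hn : Tl C n) :
    2 * dl C n = al C n + dl C (T n) := by
  unfold dl
  rw [(summ_al hC hn).tsum_eq_zero_add, mul_add, ← tsum_mul_left]
  congr 1
  · simp; ring
  · refine tsum_congr fun i => ?_
    rw [Function.iterate_succ_apply, pow_succ 2 (i + 1)]
    field_simp

theorem summ_g {C : ℝ} (hC : HE C) {n : ℤ} (hn : Tl C n) {z : ℂ} (hz : z ∈ K n) :
    Summable (fun i : ℕ => g n i z) :=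
  Summable.of_norm_bounded (summ_al hC hn) (g_le hC hn hz)

theorem S_le {C : ℝ} (hC : HE C) {n : ℤ} (hn : Tl C n) {z : ℂ} (hz : z ∈ K n) :
    ‖S n z‖ ≤ dl C n :=
  tsum_of_norm_bounded (summ_al hC hn).hasSum (g_le hC hn hz)

theorem S_rec {C : ℝ} (hC : HE C) {n : ℤ} (hn : Tl C n) {z : ℂ} (hz : z ∈ K n) :
    2 * S n z = Complex.log (F n 0 z) + S (T n) (f₀ z) := by
  unfold S
  rw [(summ_g hC hn hz).tsum_eq_zero_add, mul_add, ← tsum_mul_left]
  congr 1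
  · unfold g; simp; ring
  · refine tsum_congr fun i => ?_
    unfold g F
    rw [Function.iterate_succ_apply, Function.iterate_succ_apply, pow_succ 2 (i + 1)]
    field_simp

theorem B_rec {C : ℝ} (hC : HE C) {n : ℤ} (hn : Tl C n) {z : ℂ} (hz : z ∈ K n) :
    B (T n) (f₀ z) = sg n * B n z ^ 2 := by
  have h1 := S_rec hC hn hz
  have h2 : Complex.exp (S n z) ^ 2 = F n 0 z * Complex.exp (S (T n) (f₀ z)) := by
    rw [← Complex.exp_nat_mul]
    push_cast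
    rw [h1, Complex.exp_add, Complex.exp_log (F_ne hC hn hz 0)]
  have h3 : F n 0 z = 1 + E n (z - n) := by unfold F; simp
  unfold B
  rw [f₀_eq n (bt0 n), mul_pow, h2, h3, (hT.2 n).2.1]
  have h4 : (rho n : ℂ) ≠ 0 := by exact_mod_cast (rho_pos n).ne'
  have h5 : (bt n : ℂ) ≠ 0 := by exact_mod_cast (bt0 n).ne'
  push_cast
  field_simp

theorem B_iter {C : ℝ} (hC : HE C) {n : ℤ} (hn : Tl C n) {z : ℂ} (hz : z ∈ K n) (j : ℕ) :
    ‖B (T^[j] n) (f₀^[j] z)‖ = ‖B n z‖ ^ (2 ^ j) := by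
  induction j with
  | zero => simp
  | succ j ih =>
    rw [Function.iterate_succ_apply', Function.iterate_succ_apply',
      B_rec hC (Tl_iter hn j) (K_iter hz j), norm_mul, sg_norm, one_mul, norm_pow, ih, pow_succ 2 j,
      pow_mul]

theorem exp_dl_le {C : ℝ} (hC : HE C) {n : ℤ} (hn : Tl C n) : Real.exp (dl C n) ≤ 2 := by
  have h1 := dl_le hC hn
  have h2 : Real.exp (dl C n) ≤ Real.exp (1 / 2) := Real.exp_le_exp.2 (by linarith)
  have h3 : Real.exp (1 / 2) ≤ 2 := by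
    have h4 := Real.exp_bound_div_one_sub_of_interval (x := 1 / 2) (by norm_num) (by norm_num)
    norm_num at h4
    linarith
  linarith

theorem exp_S_le {C : ℝ} (hC : HE C) {n : ℤ} (hn : Tl C n) {z : ℂ} (hz : z ∈ K n) :
    ‖Complex.exp (S n z)‖ ≤ Real.exp (dl C n) := by
  rw [Complex.norm_exp]
  exact Real.exp_le_exp.2 ((Complex.re_le_norm _).trans (S_le hC hn hz))

theorem exp_S_ge {C : ℝ} (hC : HE C) {n : ℤ} (hn : Tl C n) {z : ℂ} (hz : z ∈ K n) :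
    1 ≤ Real.exp (dl C n) * ‖Complex.exp (S n z)‖ := by
  rw [Complex.norm_exp, ← Real.exp_add]
  apply Real.one_le_exp
  have h1 := (abs_le.1 (Complex.abs_re_le_norm (S n z))).1
  have h2 := S_le hC hn hz
  linarith

theorem B_norm (n : ℤ) (z : ℂ) : ‖B n z‖ = ‖z - n‖ / rho n * ‖Complex.exp (S n z)‖ := by
  unfold B
  rw [norm_mul, norm_div, Complex.norm_real, Real.norm_of_nonneg (rho_pos n).le]

theorem B_le_one {C : ℝ} (hC : HE C) {n : ℤ} (hn : Tl C n) {z : ℂ} (hz : z ∈ K n) :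
    ‖B n z‖ ≤ 1 := by
  have key : ∀ {n : ℤ} {z : ℂ}, Tl C n → z ∈ K n → ‖B n z‖ ≤ 4 := by
    intro n z hn hz
    rw [B_norm]
    have h1 : ‖z - n‖ ≤ 2 * rho n := by simpa using hz 0
    have h2 := (exp_S_le hC hn hz).trans (exp_dl_le hC hn)
    have h3 : ‖z - n‖ / rho n ≤ 2 := by rw [div_le_iff₀ (rho_pos n)]; exact h1
    calc ‖z - n‖ / rho n * ‖Complex.exp (S n z)‖ ≤ 2 * 2 := by
          have := rho_pos n
          gcongr
      _ = 4 := by norm_num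
  by_contra hcon
  push Not at hcon
  obtain ⟨N, hN⟩ := pow_unbounded_of_one_lt 4 hcon
  have h1 := key (Tl_iter hn N) (K_iter hz N)
  rw [B_iter hC hn hz] at h1
  have h2 : ‖B n z‖ ^ N ≤ ‖B n z‖ ^ (2 ^ N) :=
    pow_le_pow_right₀ hcon.le (Nat.lt_two_pow_self).le
  linarith

/-- the points are controlled by the Böttcher coordinate -/
theorem z_le_B {C : ℝ} (hC : HE C) {n : ℤ} (hn : Tl C n) {z : ℂ} (hz : z ∈ K n) :
    ‖z - n‖ ≤ rho n * Real.exp (dl C n) * ‖B n z‖ := by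
  have h1 := exp_S_ge hC hn hz
  have h0 := rho_pos n
  rw [B_norm]
  have e : rho n * Real.exp (dl C n) * (‖z - n‖ / rho n * ‖Complex.exp (S n z)‖) =
      ‖z - n‖ * (Real.exp (dl C n) * ‖Complex.exp (S n z)‖) := by field_simp
  rw [e]
  have h2 : 0 ≤ ‖z - n‖ := norm_nonneg _
  nlinarith

theorem z_le {C : ℝ} (hC : HE C) {n : ℤ} (hn : Tl C n) {z : ℂ} (hz : z ∈ K n) :
    ‖z - n‖ ≤ rho n * Real.exp (dl C n) := by
  have h1 := z_le_B hC hn hz
  have h2 := B_le_one hC hn hz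
  have h3 : 0 ≤ rho n * Real.exp (dl C n) := by
    have := rho_pos n
    positivity
  nlinarith

/-- one step for two points -/
theorem two_step {C : ℝ} (hC : HE C) {n : ℤ} (hn : Tl C n) {z z' : ℂ} (hz : z ∈ K n)
    (hz' : z' ∈ K n) :
    ‖f₀ z - f₀ z'‖ ≤ 2 * (rho (T n) / rho n) * Real.exp (dl C n + 2 * al C n) * ‖z - z'‖ := by
  have hr := rho_pos n
  have hb := bt0 n
  have h1 := z_le hC hn hz
  have h1' := z_le hC hn hz'
  obtain ⟨P, hP⟩ : ∃ P : ℝ, P = rho n * Real.exp (dl C n) := ⟨_, rfl⟩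
  have hP0 : 0 < P := by rw [hP]; positivity
  rw [← hP] at h1 h1'
  have w6 : ‖z - n‖ ≤ 6 / bt n := by simpa using w_le hz 0
  have w6' : ‖z' - n‖ ≤ 6 / bt n := by simpa using w_le hz' 0
  have hn0 : 100 * C ≤ bt n := by simpa using hn 0
  have hC1 := hC.one
  have e1 : ‖E n (z - n)‖ ≤ al C n / 2 := by simpa using E_le hC hn hz 0
  have e2 := hC.e2 n (z - n) (z' - n) (by linarith) w6 w6'
  rw [sub_sub_sub_cancel_right] at e2
  have ha := al_nonneg hC n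
  have eq : f₀ z - f₀ z' = sg n * bt n * ((z - z') * ((z - n) + (z' - n)) * (1 + E n (z - n)) +
      (z' - n) ^ 2 * (E n (z - n) - E n (z' - n))) := by
    have h2 := f₀_eq n hb z
    have h3 := f₀_eq n hb z'
    linear_combination h2 - h3
  have hD : 0 ≤ ‖z - z'‖ := norm_nonneg _
  have b1 : ‖(z - z') * ((z - n) + (z' - n)) * (1 + E n (z - n))‖ ≤
      ‖z - z'‖ * (P + P) * (1 + al C n / 2) := by
    rw [norm_mul, norm_mul]
    gcongr
    · exact (norm_add_le _ _).trans (add_le_add h1 h1')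
    · refine (norm_add_le _ _).trans ?_
      rw [norm_one]
      linarith
  have b2 : ‖(z' - n) ^ 2 * (E n (z - n) - E n (z' - n))‖ ≤ P * (6 / bt n) * (C / bt n * ‖z - z'‖) := by
    rw [norm_mul, norm_pow, sq]
    gcongr
  have b3 : P * (6 / bt n) * (C / bt n * ‖z - z'‖) = ‖z - z'‖ * P * (3 * al C n) := by
    unfold al; field_simp
    ring
  rw [eq, norm_mul, norm_mul, sg_norm, one_mul, Complex.norm_real, Real.norm_of_nonneg hb.le]
  have hrT : rho (T n) / rho n = bt n * rho n := by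
    rw [(hT.2 n).2.1]; field_simp
  rw [hrT, Real.exp_add]
  have hexp : 1 + 2 * al C n ≤ Real.exp (2 * al C n) := by
    have := Real.add_one_le_exp (2 * al C n)
    linarith
  calc bt n * ‖(z - z') * ((z - n) + (z' - n)) * (1 + E n (z - n)) +
      (z' - n) ^ 2 * (E n (z - n) - E n (z' - n))‖
      ≤ bt n * (‖z - z'‖ * (P + P) * (1 + al C n / 2) + ‖z - z'‖ * P * (3 * al C n)) := by
        gcongr
        refine (norm_add_le _ _).trans (add_le_add b1 ?_)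
        rw [← b3]; exact b2
    _ = 2 * (bt n * P) * (1 + 2 * al C n) * ‖z - z'‖ := by ring
    _ ≤ 2 * (bt n * P) * Real.exp (2 * al C n) * ‖z - z'‖ := by gcongr
    _ = _ := by rw [hP]; ring

end Pool.Agent.P8H70.WD
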