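import Mathlib
import Pool.Agent.P8H70.WD.Seq

/-! Böttcher coordinates along a wandering orbit of `f₀`: they are almost isometries. -/

set_option autoImplicit false

open Filter Topology Metric Set

namespace Pool.Agent.P8H70.WD

open Pool.Agent.H723R2.LSW Pool.Agent.Y282.WD

/-- the total error -/
noncomputable def AL (C : ℝ) (n : ℤ) : ℝ := ∑' i : ℕ, al C (T^[i] n)

theorem log_lip {a b : ℂ} (ha : ‖a‖ ≤ 1 / 2) (hb : ‖b‖ ≤ 1 / 2) :
    ‖Complex.log (1 + a) - Complex.log (1 + b)‖ ≤ 2 * ‖a - b‖ := by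
  have h1 := (convex_closedBall (0 : ℂ) (1 / 2)).norm_image_sub_le_of_norm_hasDerivWithin_le
    (f := fun w : ℂ => Complex.log (1 + w)) (f' := fun w => 1 / (1 + w)) (C := 2) (fun w hw => by
      rw [mem_closedBall, dist_zero_right] at hw
      have h2 : (1 + w) ∈ Complex.slitPlane :=
        Complex.mem_slitPlane_of_norm_lt_one (lt_of_le_of_lt hw (by norm_num))
      exact (((hasDerivAt_id w).const_add 1).clog h2).hasDerivWithinAt) (fun w hw => by
      rw [mem_closedBall, dist_zero_right] at hw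
      rw [norm_div, norm_one]
      have h3 : (1 : ℝ) / 2 ≤ ‖1 + w‖ := by
        have := norm_sub_norm_le (1 : ℂ) (-w)
        rw [norm_one, norm_neg, sub_neg_eq_add] at this
        linarith
      rw [div_le_iff₀ (by linarith)]
      linarith) (show b ∈ closedBall (0 : ℂ) (1 / 2) by simpa using hb)
    (show a ∈ closedBall (0 : ℂ) (1 / 2) by simpa using ha)
  exact h1

theorem sum_dl {C : ℝ} (hC : HE C) {n : ℤ} (hn : Tl C n) (i : ℕ) :
    ∑ l ∈ Finset.range i, dl C (T^[l] n) + dl C n =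
      ∑ l ∈ Finset.range i, al C (T^[l] n) + dl C (T^[i] n) := by
  induction i with
  | zero => simp
  | succ i ih =>
    rw [Finset.sum_range_succ, Finset.sum_range_succ]
    have h1 := dl_rec hC (Tl_iter hn i)
    rw [← Function.iterate_succ_apply' T] at h1
    linarith

theorem sum_cc {C : ℝ} (hC : HE C) {n : ℤ} (hn : Tl C n)
    (hs : Summable (fun i : ℕ => al C (T^[i] n))) (hA : AL C n ≤ 1 / 100) (i : ℕ) :
    ∑ l ∈ Finset.range i, (dl C (T^[l] n) + 2 * al C (T^[l] n)) ≤ 1 / 2 := by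
  rw [Finset.sum_add_distrib, ← Finset.mul_sum]
  have h1 := sum_dl hC hn i
  have h2 : ∑ l ∈ Finset.range i, al C (T^[l] n) ≤ AL C n :=
    hs.sum_le_tsum _ (fun l _ => al_nonneg hC _)
  have h3 := dl_nonneg hC n
  have h4 := dl_le hC (Tl_iter hn i)
  linarith

theorem exp_half : Real.exp (1 / 2) ≤ 2 := by
  have h4 := Real.exp_bound_div_one_sub_of_interval (x := 1 / 2) (by norm_num) (by norm_num)
  norm_num at h4
  linarith

theorem two_iter {C : ℝ} (hC : HE C) {n : ℤ} (hn : Tl C n) {z z' : ℂ} (hz : z ∈ K n)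
    (hz' : z' ∈ K n) (i : ℕ) :
    ‖f₀^[i] z - f₀^[i] z'‖ ≤ 2 ^ i * (rho (T^[i] n) / rho n) *
      Real.exp (∑ l ∈ Finset.range i, (dl C (T^[l] n) + 2 * al C (T^[l] n))) * ‖z - z'‖ := by
  induction i with
  | zero =>
    have := (rho_pos n).ne'
    simp [div_self this]
  | succ i ih =>
    have h1 := two_step hC (Tl_iter hn i) (K_iter hz i) (K_iter hz' i)
    rw [Function.iterate_succ_apply', Function.iterate_succ_apply', Function.iterate_succ_apply',
      Finset.sum_range_succ]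
    refine h1.trans ?_
    have hr := rho_pos n
    have hri := rho_pos (T^[i] n)
    have hrT := rho_pos (T (T^[i] n))
    calc 2 * (rho (T (T^[i] n)) / rho (T^[i] n)) * Real.exp (dl C (T^[i] n) + 2 * al C (T^[i] n)) *
          ‖f₀^[i] z - f₀^[i] z'‖
        ≤ 2 * (rho (T (T^[i] n)) / rho (T^[i] n)) *
          Real.exp (dl C (T^[i] n) + 2 * al C (T^[i] n)) * (2 ^ i * (rho (T^[i] n) / rho n) *
      Real.exp (∑ l ∈ Finset.range i, (dl C (T^[l] n) + 2 * al C (T^[l] n))) * ‖z - z'‖) := by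
          gcongr
      _ = _ := by
        rw [Real.exp_add (∑ l ∈ Finset.range i, (dl C (T^[l] n) + 2 * al C (T^[l] n)))]
        field_simp
        ring

theorem two_iter' {C : ℝ} (hC : HE C) {n : ℤ} (hn : Tl C n)
    (hs : Summable (fun i : ℕ => al C (T^[i] n))) (hA : AL C n ≤ 1 / 100)
    {z z' : ℂ} (hz : z ∈ K n) (hz' : z' ∈ K n) (i : ℕ) :
    ‖f₀^[i] z - f₀^[i] z'‖ ≤ 2 ^ i * (rho (T^[i] n) / rho n) * 2 * ‖z - z'‖ := by
  refine (two_iter hC hn hz hz' i).trans ?_
  have h1 := sum_cc hC hn hs hA i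
  have h2 : Real.exp (∑ l ∈ Finset.range i, (dl C (T^[l] n) + 2 * al C (T^[l] n))) ≤ 2 :=
    (Real.exp_le_exp.2 h1).trans exp_half
  have hr := rho_pos n
  have hri := rho_pos (T^[i] n)
  gcongr

theorem g_lip {C : ℝ} (hC : HE C) {n : ℤ} (hn : Tl C n)
    (hs : Summable (fun i : ℕ => al C (T^[i] n))) (hA : AL C n ≤ 1 / 100)
    {z z' : ℂ} (hz : z ∈ K n) (hz' : z' ∈ K n) (i : ℕ) :
    ‖g n i z - g n i z'‖ ≤ al C (T^[i] n) * (3 / rho n) * ‖z - z'‖ := by
  have h1 := two_iter' hC hn hs hA hz hz' i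
  have hC1 := hC.one
  have h2 := hC.e2 (T^[i] n) _ _ (by linarith [hn i]) (w_le hz i) (w_le hz' i)
  rw [sub_sub_sub_cancel_right] at h2
  have h3 := log_lip (E_half hC hn hz i) (E_half hC hn hz' i)
  have hr := rho_pos n
  have hri := rho_pos (T^[i] n)
  have hb := bt0 (T^[i] n)
  have h4 : ‖(2 : ℂ) ^ (i + 1)‖ = 2 ^ (i + 1) := by rw [norm_pow]; norm_num
  have h5 := (hT.2 (T^[i] n)).2.2.2
  unfold g F
  rw [← sub_div, norm_div, h4, div_le_iff₀ (by positivity)]
  have hD : 0 ≤ ‖z - z'‖ := norm_nonneg _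
  calc _ ≤ 2 * (C / bt (T^[i] n) * (2 ^ i * (rho (T^[i] n) / rho n) * 2 * ‖z - z'‖)) := by
        refine h3.trans ?_
        gcongr
        refine h2.trans ?_
        gcongr
    _ = (2 * C / bt (T^[i] n) ^ 2) * (bt (T^[i] n) * rho (T^[i] n) / rho n) * ‖z - z'‖ *
        2 ^ (i + 1) := by
        field_simp
        ring
    _ ≤ (2 * C / bt (T^[i] n) ^ 2) * (3 / rho n) * ‖z - z'‖ * 2 ^ (i + 1) := by gcongr
    _ = _ := rfl

theorem dl_le_AL {C : ℝ} (hC : HE C) {n : ℤ} (hn : Tl C n)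
    (hs : Summable (fun i : ℕ => al C (T^[i] n))) : dl C n ≤ AL C n := by
  refine (summ_al hC hn).tsum_le_tsum (fun i => ?_) hs
  have := al_nonneg hC (T^[i] n)
  exact div_le_self this (one_le_pow₀ (by norm_num))

theorem AL_nonneg {C : ℝ} (hC : HE C) (n : ℤ) : 0 ≤ AL C n :=
  tsum_nonneg fun _ => al_nonneg hC _

theorem S_lip {C : ℝ} (hC : HE C) {n : ℤ} (hn : Tl C n)
    (hs : Summable (fun i : ℕ => al C (T^[i] n))) (hA : AL C n ≤ 1 / 100)
    {z z' : ℂ} (hz : z ∈ K n) (hz' : z' ∈ K n) :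
    ‖S n z - S n z'‖ ≤ AL C n * (3 / rho n) * ‖z - z'‖ := by
  unfold S
  rw [← (summ_g hC hn hz).tsum_sub (summ_g hC hn hz')]
  refine tsum_of_norm_bounded ?_ (g_lip hC hn hs hA hz hz')
  exact (hs.hasSum.mul_right _).mul_right _

/-- the Böttcher coordinate is an almost isometry -/
theorem B_lip {C : ℝ} (hC : HE C) {n : ℤ} (hn : Tl C n)
    (hs : Summable (fun i : ℕ => al C (T^[i] n))) (hA : AL C n ≤ 1 / 100)
    {z z' : ℂ} (hz : z ∈ K n) (hz' : z' ∈ K n) :
    ‖rho n * (B n z - B n z') - (z - z')‖ ≤ 26 * AL C n * ‖z - z'‖ := by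
  have hr := rho_pos n
  have hr' : (rho n : ℂ) ≠ 0 := by exact_mod_cast hr.ne'
  have hdl := dl_le hC hn
  have hdA := dl_le_AL hC hn hs
  have hA0 := AL_nonneg hC n
  have s1 := S_le hC hn hz
  have s1' := S_le hC hn hz'
  have e1 := Complex.norm_exp_sub_one_le (x := S n z) (by linarith)
  have e2 := Complex.norm_exp_sub_one_le (x := S n z - S n z') (by
    refine (norm_sub_le _ _).trans ?_
    linarith)
  have e3 := (exp_S_le hC hn hz').trans (exp_dl_le hC hn)
  have e4 := S_lip hC hn hs hA hz hz'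
  have e5 : ‖z' - n‖ ≤ 2 * rho n := by simpa using hz' 0
  have hD : 0 ≤ ‖z - z'‖ := norm_nonneg _
  have eq : rho n * (B n z - B n z') - (z - z') = (z - z') * (Complex.exp (S n z) - 1) +
      (z' - n) * (Complex.exp (S n z') * (Complex.exp (S n z - S n z') - 1)) := by
    have h6 : Complex.exp (S n z) = Complex.exp (S n z') * Complex.exp (S n z - S n z') := by
      rw [← Complex.exp_add]; congr 1; ring
    unfold B
    rw [h6]
    field_simp
    ring
  rw [eq]
  calc ‖(z - z') * (Complex.exp (S n z) - 1) +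
      (z' - n) * (Complex.exp (S n z') * (Complex.exp (S n z - S n z') - 1))‖
      ≤ ‖z - z'‖ * ‖Complex.exp (S n z) - 1‖ +
        ‖z' - n‖ * (‖Complex.exp (S n z')‖ * ‖Complex.exp (S n z - S n z') - 1‖) := by
        refine (norm_add_le _ _).trans ?_
        rw [norm_mul, norm_mul, norm_mul]
    _ ≤ ‖z - z'‖ * (2 * AL C n) + (2 * rho n) * (2 * (2 * (AL C n * (3 / rho n) * ‖z - z'‖))) := by
        gcongr
        · exact e1.trans (by linarith)
        · exact e2.trans (by linarith)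
    _ = 26 * AL C n * ‖z - z'‖ := by field_simp; ring

theorem B_inj {C : ℝ} (hC : HE C) {n : ℤ} (hn : Tl C n)
    (hs : Summable (fun i : ℕ => al C (T^[i] n))) (hA : AL C n ≤ 1 / 100) :
    InjOn (B n) (K n) := by
  intro z hz z' hz' h
  have h1 := B_lip hC hn hs hA hz hz'
  rw [h, sub_self, mul_zero, zero_sub, norm_neg] at h1
  have h2 : 0 ≤ ‖z - z'‖ := norm_nonneg _
  have h3 : ‖z - z'‖ = 0 := by nlinarith
  exact sub_eq_zero.1 (norm_eq_zero.1 h3)

end Pool.Agent.P8H70.WD
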