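import Mathlib
import Pool.Agent.P8H70.WD.Lip
import Pool.Agent.Y282.WD.Deg
import Pool.Agent.Y811.WD.Back

/-! Böttcher coordinates on wandering domains of `f₀`: derivatives, boundary values, the image. -/

set_option autoImplicit false

open Filter Topology Metric Set

namespace Pool.Agent.P8H70.WD

open Pool.Agent.H384R2.Fatou Pool.Agent.H723R2.LSW Pool.Agent.Y282.WD

/-- the Fatou component of the integer `n` -/
noncomputable def U (n : ℤ) : Set ℂ := FatouComponent f₀ (n : ℂ)

/-- the hypotheses on the orbit of `n` -/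
structure GT (C : ℝ) (n : ℤ) : Prop where
  he : HE C
  hw : Wild n
  tl : Tl C n
  hs : Summable (fun i : ℕ => al C (T^[i] n))
  hA : AL C n ≤ 1 / 100
  sub : ∀ j : ℕ, U (T^[j] n) ⊆ closedBall ((T^[j] n : ℤ) : ℂ) (2 * rho (T^[j] n))
  inn : ∀ j : ℕ, ball ((T^[j] n : ℤ) : ℂ) (rho (T^[j] n) / 2) ⊆ U (T^[j] n)

theorem self_mem (n : ℤ) : (n : ℂ) ∈ U n := mem_connectedComponentIn (int_mem_fatou n)

theorem U_open (n : ℤ) : IsOpen (U n) := component_isOpen f₀ n

theorem U_pre (n : ℤ) : IsPreconnected (U n) := isPreconnected_connectedComponentIn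

theorem f₀_cont : Continuous f₀ := f₀_differentiable.continuous

theorem K_closed (n : ℤ) : IsClosed (K n) := by
  have : K n = ⋂ i : ℕ, {z | ‖f₀^[i] z - ((T^[i] n : ℤ) : ℂ)‖ ≤ 2 * rho (T^[i] n)} := by
    ext z; simp [K]
  rw [this]
  refine isClosed_iInter fun i => isClosed_le ?_ continuous_const
  exact ((f₀_cont.iterate i).sub continuous_const).norm

theorem U_sub_K {C : ℝ} {n : ℤ} (h : GT C n) : U n ⊆ K n := by
  intro z hz i
  have h1 := h.sub i (f₀_iter_mem n i hz)
  rwa [mem_closedBall, dist_eq_norm] at h1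

theorem W_sub_K {C : ℝ} {n : ℤ} (h : GT C n) : closure (U n) ⊆ K n :=
  closure_minimal (U_sub_K h) (K_closed n)

theorem W_compact {C : ℝ} {n : ℤ} (h : GT C n) : IsCompact (closure (U n)) := by
  have : Bornology.IsBounded (U n) := by
    have h1 := h.sub 0
    exact isBounded_closedBall.subset h1
  exact this.isCompact_closure

theorem F_diff (n : ℤ) (i : ℕ) : Differentiable ℂ (F n i) :=
  ((E_diff _).comp ((f₀_differentiable.iterate i).sub_const _)).const_add 1

/-- the derivative of `g n i` -/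
noncomputable def dg (n : ℤ) (i : ℕ) (z : ℂ) : ℂ := deriv (F n i) z / F n i z / 2 ^ (i + 1)

theorem g_hasDeriv {C : ℝ} {n : ℤ} (h : GT C n) {z : ℂ} (hz : z ∈ K n) (i : ℕ) :
    HasDerivAt (g n i) (dg n i z) z :=
  (((F_diff n i) z).hasDerivAt.clog (F_slit h.he h.tl hz i)).div_const _

theorem dg_cont {C : ℝ} {n : ℤ} (h : GT C n) (i : ℕ) : ContinuousOn (dg n i) (K n) := by
  have h1 : Continuous (deriv (F n i)) := (F_diff n i).contDiff.continuous_deriv le_top
  exact ((h1.continuousOn.div (F_diff n i).continuous.continuousOn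
    (fun z hz => F_ne h.he h.tl hz i))).div_const _

theorem W_neBot {n : ℤ} {z : ℂ} (hz : z ∈ closure (U n)) : (𝓝[U n] z).NeBot :=
  mem_closure_iff_nhdsWithin_neBot.1 hz

theorem dg_le {C : ℝ} {n : ℤ} (h : GT C n) {z : ℂ} (hz : z ∈ closure (U n)) (i : ℕ) :
    ‖dg n i z‖ ≤ al C (T^[i] n) * (3 / rho n) := by
  have hr := rho_pos n
  have ha := al_nonneg h.he (T^[i] n)
  have h1 : ∀ z ∈ U n, ‖dg n i z‖ ≤ al C (T^[i] n) * (3 / rho n) := by
    intro z hz
    refine (g_hasDeriv h (U_sub_K h hz) i).le_of_lip' (by positivity) ?_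
    filter_upwards [(U_open n).mem_nhds hz] with w hw
    exact g_lip h.he h.tl h.hs h.hA (U_sub_K h hw) (U_sub_K h hz) i
  haveI := W_neBot hz
  have h2 : Tendsto (fun w => ‖dg n i w‖) (𝓝[U n] z) (𝓝 ‖dg n i z‖) :=
    ((dg_cont h i z (W_sub_K h hz)).mono (U_sub_K h)).norm
  refine le_of_tendsto h2 ?_
  filter_upwards [self_mem_nhdsWithin] with w hw
  exact h1 w hw

noncomputable def DS (n : ℤ) (z : ℂ) : ℂ := ∑' i : ℕ, dg n i z

theorem S_hasDeriv {C : ℝ} {n : ℤ} (h : GT C n) {z : ℂ} (hz : z ∈ U n) :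
    HasDerivAt (S n) (DS n z) z :=
  hasDerivAt_tsum_of_isPreconnected (h.hs.mul_right (3 / rho n)) (U_open n) (U_pre n)
    (fun i y hy => g_hasDeriv h (U_sub_K h hy) i) (fun i y hy => dg_le h (subset_closure hy) i)
    (self_mem n) (summ_g h.he h.tl (U_sub_K h (self_mem n))) hz

theorem DS_cont {C : ℝ} {n : ℤ} (h : GT C n) : ContinuousOn (DS n) (closure (U n)) :=
  continuousOn_tsum (fun i => (dg_cont h i).mono (W_sub_K h)) (h.hs.mul_right (3 / rho n))
    (fun i _ hz => dg_le h hz i)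

theorem S_cont {C : ℝ} {n : ℤ} (h : GT C n) : ContinuousOn (S n) (K n) :=
  continuousOn_tsum (fun i z hz => (g_hasDeriv h hz i).continuousAt.continuousWithinAt)
    (summ_al h.he h.tl) (fun i _ hz => g_le h.he h.tl hz i)

/-- the derivative of the Böttcher coordinate -/
noncomputable def D (n : ℤ) (z : ℂ) : ℂ :=
  1 / rho n * Complex.exp (S n z) * (1 + (z - n) * DS n z)

theorem B_hasDeriv {C : ℝ} {n : ℤ} (h : GT C n) {z : ℂ} (hz : z ∈ U n) :
    HasDerivAt (B n) (D n z) z := by
  have h1 : HasDerivAt (fun z : ℂ => (z - n) / rho n) (1 / rho n) z :=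
    ((hasDerivAt_id z).sub_const _).div_const _
  have h2 := h1.mul (S_hasDeriv h hz).cexp
  refine h2.congr_deriv ?_
  unfold D
  ring

theorem B_cont {C : ℝ} {n : ℤ} (h : GT C n) : ContinuousOn (B n) (K n) := by
  have h1 : Continuous (fun z : ℂ => (z - n) / rho n) := by fun_prop
  exact h1.continuousOn.mul (S_cont h).cexp

theorem D_cont {C : ℝ} {n : ℤ} (h : GT C n) : ContinuousOn (D n) (closure (U n)) := by
  have h1 : Continuous (fun z : ℂ => (z - n)) := by fun_prop
  exact (continuousOn_const.mul ((S_cont h).mono (W_sub_K h)).cexp).mul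
    (continuousOn_const.add (h1.continuousOn.mul (DS_cont h)))

theorem D_near {C : ℝ} {n : ℤ} (h : GT C n) {z : ℂ} (hz : z ∈ closure (U n)) :
    ‖rho n * D n z - 1‖ ≤ 26 * AL C n := by
  have hA0 := AL_nonneg h.he n
  have h1 : ∀ z ∈ U n, ‖rho n * D n z - 1‖ ≤ 26 * AL C n := by
    intro z hz
    have h2 : HasDerivAt (fun w => rho n * B n w - w) (rho n * D n z - 1) z :=
      ((B_hasDeriv h hz).const_mul _).sub (hasDerivAt_id z)
    refine h2.le_of_lip' (by positivity) ?_
    filter_upwards [(U_open n).mem_nhds hz] with w hw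
    have h3 := B_lip h.he h.tl h.hs h.hA (U_sub_K h hw) (U_sub_K h hz)
    refine le_trans (le_of_eq ?_) h3
    congr 1
    ring
  haveI := W_neBot hz
  have h2 : Tendsto (fun w => ‖rho n * D n w - 1‖) (𝓝[U n] z) (𝓝 ‖rho n * D n z - 1‖) :=
    (((continuousOn_const.mul (D_cont h)).sub continuousOn_const z hz).mono subset_closure).norm
  refine le_of_tendsto h2 ?_
  filter_upwards [self_mem_nhdsWithin] with w hw
  exact h1 w hw

theorem D_ne {C : ℝ} {n : ℤ} (h : GT C n) {z : ℂ} (hz : z ∈ closure (U n)) : D n z ≠ 0 := by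
  intro h0
  have h1 := D_near h hz
  have h2 := h.hA
  rw [h0, mul_zero, zero_sub, norm_neg, norm_one] at h1
  linarith

/-! ### the image -/

theorem B_image_open {C : ℝ} {n : ℤ} (h : GT C n) : IsOpen (B n '' U n) := by
  have h1 : DifferentiableOn ℂ (B n) (U n) :=
    fun z hz => (B_hasDeriv h hz).differentiableAt.differentiableWithinAt
  rcases (h1.analyticOnNhd (U_open n)).is_constant_or_isOpen (U_pre n) with ⟨w, hw⟩ | h2
  · exfalso
    have hr := rho_pos n
    have h3 : (n : ℂ) + (rho n / 4 : ℝ) ∈ U n := by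
      apply h.inn 0
      rw [mem_ball, dist_eq_norm]
      simp only [Function.iterate_zero, id_eq, add_sub_cancel_left]
      rw [Complex.norm_real, Real.norm_of_nonneg (by positivity)]
      linarith
    have h4 := B_inj h.he h.tl h.hs h.hA (U_sub_K h h3) (U_sub_K h (self_mem n))
      ((hw _ h3).trans (hw _ (self_mem n)).symm)
    have h5 : ((rho n / 4 : ℝ) : ℂ) = 0 := by linear_combination h4
    have h6 : rho n / 4 = 0 := by exact_mod_cast h5
    linarith
  · exact h2 _ subset_rfl (U_open n)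

theorem B_image_sub {C : ℝ} {n : ℤ} (h : GT C n) : B n '' U n ⊆ ball 0 1 := by
  rw [← interior_closedBall (0 : ℂ) one_ne_zero]
  refine interior_maximal ?_ (B_image_open h)
  rintro _ ⟨z, hz, rfl⟩
  rw [mem_closedBall, dist_zero_right]
  exact B_le_one h.he h.tl (U_sub_K h hz)

theorem back_iter (j : ℕ) {z : ℂ} (hz : f₀^[j] z ∈ FatouSet f₀) : z ∈ FatouSet f₀ := by
  induction j with
  | zero => exact hz
  | succ j ih =>
    rw [Function.iterate_succ_apply'] at hz
    exact ih (Pool.Agent.Y811.WD.t_BACK _ hz)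

theorem mem_U_of {n : ℤ} {z : ℂ} (hz : z ∈ closure (U n)) (hF : z ∈ FatouSet f₀) : z ∈ U n := by
  have hV : IsOpen (FatouComponent f₀ z) := component_isOpen f₀ z
  have hzV : z ∈ FatouComponent f₀ z := mem_connectedComponentIn hF
  obtain ⟨w, hw1, hw2⟩ := mem_closure_iff.1 hz _ hV hzV
  have h1 : connectedComponentIn (FatouSet f₀) z = connectedComponentIn (FatouSet f₀) w :=
    connectedComponentIn_eq hw1
  have h2 : connectedComponentIn (FatouSet f₀) (n : ℂ) = connectedComponentIn (FatouSet f₀) w :=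
    connectedComponentIn_eq hw2
  show z ∈ connectedComponentIn (FatouSet f₀) (n : ℂ)
  rw [h2, ← h1]
  exact hzV

theorem mem_U_of_B {C : ℝ} {n : ℤ} (h : GT C n) {z : ℂ} (hz : z ∈ closure (U n))
    (hB : ‖B n z‖ < 1) : z ∈ U n := by
  refine mem_U_of hz ?_
  obtain ⟨N, hN⟩ := exists_pow_lt_of_lt_one (show (0 : ℝ) < 1 / 4 by norm_num) hB
  have hzK := W_sub_K h hz
  have h1 := z_le_B h.he (Tl_iter h.tl N) (K_iter hzK N)
  rw [B_iter h.he h.tl hzK] at h1
  have h2 := exp_dl_le h.he (Tl_iter h.tl N)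
  have h3 : ‖B n z‖ ^ (2 ^ N) ≤ ‖B n z‖ ^ N :=
    pow_le_pow_of_le_one (norm_nonneg _) hB.le (Nat.lt_two_pow_self).le
  have hr := rho_pos (T^[N] n)
  apply back_iter N
  refine connectedComponentIn_subset _ _ (h.inn N ?_)
  rw [mem_ball, dist_eq_norm]
  calc _ ≤ _ := h1
    _ ≤ rho (T^[N] n) * 2 * ‖B n z‖ ^ N := by gcongr
    _ < rho (T^[N] n) * 2 * (1 / 4) := by gcongr
    _ = rho (T^[N] n) / 2 := by ring

theorem B_image {C : ℝ} {n : ℤ} (h : GT C n) : B n '' U n = ball 0 1 := by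
  refine Subset.antisymm (B_image_sub h) ?_
  refine (convex_ball (0 : ℂ) 1).isPreconnected.subset_of_closure_inter_subset (B_image_open h)
    ⟨B n n, B_image_sub h ⟨n, self_mem n, rfl⟩, n, self_mem n, rfl⟩ ?_
  rintro w ⟨hw1, hw2⟩
  have hc : IsClosed (B n '' closure (U n)) :=
    ((W_compact h).image_of_continuousOn ((B_cont h).mono (W_sub_K h))).isClosed
  obtain ⟨z, hz, rfl⟩ := closure_minimal (image_mono subset_closure) hc hw1
  rw [mem_ball, dist_zero_right] at hw2
  exact ⟨z, mem_U_of_B h hz hw2, rfl⟩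

theorem B_image_W {C : ℝ} {n : ℤ} (h : GT C n) : B n '' closure (U n) = closedBall 0 1 := by
  apply Subset.antisymm
  · rintro _ ⟨z, hz, rfl⟩
    rw [mem_closedBall, dist_zero_right]
    exact B_le_one h.he h.tl (W_sub_K h hz)
  · have hc : IsClosed (B n '' closure (U n)) :=
      ((W_compact h).image_of_continuousOn ((B_cont h).mono (W_sub_K h))).isClosed
    rw [← closure_ball (0 : ℂ) one_ne_zero]
    refine closure_minimal ?_ hc
    rw [← B_image h]
    exact image_mono subset_closure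

end Pool.Agent.P8H70.WD
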