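import Mathlib
import Pool.Agent.Y282.WD.Deg

/-! The sum of the inverse squares along a wandering orbit. -/

set_option autoImplicit false

open Filter Topology Metric Set

namespace Pool.Agent.P8H70.WD

open Pool.Agent.H723R2.LSW Pool.Agent.Y282.WD

theorem inv_sq_nat (s : Finset ℕ) (y : ℕ → ℕ) (hy : Set.InjOn y s) {L : ℕ} (hL : 1 ≤ L)
    (h : ∀ j ∈ s, L ≤ y j) : ∑ j ∈ s, ((y j : ℝ) ^ 2)⁻¹ ≤ 2 / (L : ℝ) := by
  classical
  rw [← Finset.sum_image (f := fun k : ℕ => ((k : ℝ) ^ 2)⁻¹) hy]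
  have h1 : s.image y ⊆ Finset.Ioo (L - 1) ((s.image y).sup id + 1) := by
    intro k hk
    rw [Finset.mem_Ioo]
    have h2 : k ≤ (s.image y).sup id := Finset.le_sup (f := id) hk
    obtain ⟨j, hj, rfl⟩ := Finset.mem_image.1 hk
    have := h j hj
    omega
  calc ∑ k ∈ s.image y, ((k : ℝ) ^ 2)⁻¹
      ≤ ∑ k ∈ Finset.Ioo (L - 1) ((s.image y).sup id + 1), ((k : ℝ) ^ 2)⁻¹ :=
        Finset.sum_le_sum_of_subset_of_nonneg h1 fun _ _ _ => by positivity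
    _ ≤ 2 / (((L - 1 : ℕ) : ℝ) + 1) := sum_Ioo_inv_sq_le _ _
    _ = 2 / (L : ℝ) := by
        rw [Nat.cast_sub hL]; push_cast; ring

theorem inv_sq_sum {x : ℕ → ℤ} (hx : Function.Injective x) {M : ℝ} (hM : 1 ≤ M)
    (h : ∀ j, M ≤ |(x j : ℝ)|) (s : Finset ℕ) : ∑ j ∈ s, 1 / (x j : ℝ) ^ 2 ≤ 4 / M := by
  have hL : 1 ≤ ⌈M⌉₊ := Nat.one_le_ceil_iff.2 (by linarith)
  have hx0 : ∀ j, ⌈M⌉₊ ≤ (x j).natAbs := by
    intro j
    rw [Nat.ceil_le, Nat.cast_natAbs, Int.cast_abs]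
    exact h j
  have e : ∀ j, 1 / (x j : ℝ) ^ 2 = ((((x j).natAbs : ℕ) : ℝ) ^ 2)⁻¹ := by
    intro j
    rw [Nat.cast_natAbs, Int.cast_abs, sq_abs, one_div]
  simp_rw [e]
  rw [← Finset.sum_filter_add_sum_filter_not s (fun j => 0 < x j)]
  have h1 := inv_sq_nat (s.filter fun j => 0 < x j) (fun j => (x j).natAbs) (by
    intro i hi j hj hij
    simp only [Finset.coe_filter, mem_setOf_eq] at hi hj
    apply hx
    have : (x i).natAbs = (x j).natAbs := hij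
    omega) hL (fun j _ => hx0 j)
  have h2 := inv_sq_nat (s.filter fun j => ¬ 0 < x j) (fun j => (x j).natAbs) (by
    intro i hi j hj hij
    simp only [Finset.coe_filter, mem_setOf_eq] at hi hj
    apply hx
    have : (x i).natAbs = (x j).natAbs := hij
    omega) hL (fun j _ => hx0 j)
  have h3 : (2 : ℝ) / ⌈M⌉₊ ≤ 2 / M := by
    have := Nat.le_ceil M
    gcongr
  calc _ ≤ 2 / (⌈M⌉₊ : ℝ) + 2 / (⌈M⌉₊ : ℝ) := add_le_add h1 h2
    _ ≤ 2 / M + 2 / M := by gcongr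
    _ = 4 / M := by ring

theorem inv_sq {n : ℤ} (hw : Wild n) {M : ℝ} (hM : 1 ≤ M)
    (h : ∀ j : ℕ, M ≤ |((T^[j] n : ℤ) : ℝ)|) :
    Summable (fun j : ℕ => 1 / ((T^[j] n : ℤ) : ℝ) ^ 2) ∧
      ∑' j : ℕ, 1 / ((T^[j] n : ℤ) : ℝ) ^ 2 ≤ 4 / M := by
  have hinj : Function.Injective (fun j : ℕ => T^[j] n) := fun i j hij => hw i j hij
  have hs : Summable (fun j : ℕ => 1 / ((T^[j] n : ℤ) : ℝ) ^ 2) :=
    summable_of_sum_le (fun j => by positivity) (inv_sq_sum hinj hM h)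
  exact ⟨hs, hs.tsum_le_of_sum_le (inv_sq_sum hinj hM h)⟩

end Pool.Agent.P8H70.WD
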