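import Mathlib
import Pool.Agent.P8H70.WD.Geo
import Pool.Agent.P8H70.WD.Sum

/-! The conformal maps of the closed disc onto the closures of the wandering domains of `f₀`. -/

set_option autoImplicit false

open Filter Topology Metric Set

namespace Pool.Agent.P8H70.WD

open Pool.Agent.H384R2.Fatou Pool.Agent.H723R2.LSW Pool.Agent.Y282.WD

/-- the inverse of the Böttcher coordinate -/
noncomputable def ph (n : ℤ) (ζ : ℂ) : ℂ := Function.invFunOn (B n) (closure (U n)) ζ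

/-- its derivative -/
noncomputable def ph' (n : ℤ) (ζ : ℂ) : ℂ := (D n (ph n ζ))⁻¹

section
variable {C : ℝ} {n : ℤ} (h : GT C n)
include h

theorem ph_mem {ζ : ℂ} (hζ : ζ ∈ closedBall (0 : ℂ) 1) : ph n ζ ∈ closure (U n) := by
  rw [← B_image_W h] at hζ
  exact Function.invFunOn_mem hζ

theorem B_ph {ζ : ℂ} (hζ : ζ ∈ closedBall (0 : ℂ) 1) : B n (ph n ζ) = ζ := by
  rw [← B_image_W h] at hζ
  exact Function.invFunOn_eq hζ

theorem ph_B {z : ℂ} (hz : z ∈ closure (U n)) : ph n (B n z) = z := by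
  have h1 : B n z ∈ closedBall (0 : ℂ) 1 := by rw [← B_image_W h]; exact ⟨z, hz, rfl⟩
  exact B_inj h.he h.tl h.hs h.hA (W_sub_K h (ph_mem h h1)) (W_sub_K h hz) (B_ph h h1)

theorem ph_U {ζ : ℂ} (hζ : ζ ∈ ball (0 : ℂ) 1) : ph n ζ ∈ U n := by
  have h1 := ball_subset_closedBall hζ
  refine mem_U_of_B h (ph_mem h h1) ?_
  rw [B_ph h h1]
  simpa using hζ

theorem ph_lip {ζ ζ' : ℂ} (hζ : ζ ∈ closedBall (0 : ℂ) 1) (hζ' : ζ' ∈ closedBall (0 : ℂ) 1) :
    ‖ph n ζ - ph n ζ'‖ ≤ 2 * rho n * ‖ζ - ζ'‖ := by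
  have h1 := B_lip h.he h.tl h.hs h.hA (W_sub_K h (ph_mem h hζ)) (W_sub_K h (ph_mem h hζ'))
  rw [B_ph h hζ, B_ph h hζ'] at h1
  have h2 : ‖ph n ζ - ph n ζ'‖ ≤ ‖rho n * (ζ - ζ')‖ + ‖rho n * (ζ - ζ') - (ph n ζ - ph n ζ')‖ := by
    have := norm_sub_le (rho n * (ζ - ζ')) (rho n * (ζ - ζ') - (ph n ζ - ph n ζ'))
    rwa [sub_sub_cancel] at this
  have h3 : ‖rho n * (ζ - ζ')‖ = rho n * ‖ζ - ζ'‖ := by
    rw [norm_mul, Complex.norm_real, Real.norm_of_nonneg (rho_pos n).le]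
  rw [h3] at h2
  have h4 := h.hA
  have h5 : 0 ≤ ‖ph n ζ - ph n ζ'‖ := norm_nonneg _
  nlinarith

theorem ph_cont : ContinuousOn (ph n) (closedBall 0 1) := by
  have hr := rho_pos n
  have : LipschitzOnWith (Real.toNNReal (2 * rho n)) (ph n) (closedBall 0 1) := by
    refine LipschitzOnWith.of_dist_le_mul fun x hx y hy => ?_
    rw [dist_eq_norm, dist_eq_norm, Real.coe_toNNReal _ (by positivity)]
    exact ph_lip h hx hy
  exact this.continuousOn

theorem ph'_cont : ContinuousOn (ph' n) (closedBall 0 1) :=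
  ((D_cont h).comp (ph_cont h) (fun _ hζ => ph_mem h hζ)).inv₀ fun _ hζ => D_ne h (ph_mem h hζ)

theorem ph'_near {ζ : ℂ} (hζ : ζ ∈ closedBall (0 : ℂ) 1) :
    ‖ph' n ζ - rho n‖ ≤ 52 * AL C n * rho n := by
  have h1 := D_near h (ph_mem h hζ)
  have h2 := D_ne h (ph_mem h hζ)
  have hr := rho_pos n
  have hA := h.hA
  have hA0 := AL_nonneg h.he n
  obtain ⟨d, hd⟩ : ∃ d : ℂ, d = D n (ph n ζ) := ⟨_, rfl⟩
  unfold ph'
  rw [← hd] at h1 h2 ⊢
  have e1 : d⁻¹ - rho n = -((rho n * d - 1) * d⁻¹) := by field_simp; ring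
  have e2 : ‖d⁻¹‖ ≤ 2 * rho n := by
    rw [norm_inv, inv_le_comm₀ (norm_pos_iff.2 h2) (by positivity)]
    have h3 : 1 ≤ ‖rho n * d‖ + ‖rho n * d - 1‖ := by
      have := norm_sub_le (rho n * d) (rho n * d - 1)
      rw [sub_sub_cancel, norm_one] at this
      exact this
    rw [norm_mul, Complex.norm_real, Real.norm_of_nonneg hr.le] at h3
    rw [inv_le_iff_one_le_mul₀ (by positivity)]
    nlinarith
  rw [e1, norm_neg, norm_mul]
  calc ‖rho n * d - 1‖ * ‖d⁻¹‖ ≤ (26 * AL C n) * (2 * rho n) := by gcongr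
    _ = 52 * AL C n * rho n := by ring

theorem ph_deriv_in {ζ : ℂ} (hζ : ζ ∈ ball (0 : ℂ) 1) : HasDerivAt (ph n) (ph' n ζ) ζ := by
  have h1 : closedBall (0 : ℂ) 1 ∈ 𝓝 ζ := mem_of_superset (isOpen_ball.mem_nhds hζ)
    ball_subset_closedBall
  refine HasDerivAt.of_local_left_inverse ((ph_cont h).continuousAt h1)
    (B_hasDeriv h (ph_U h hζ)) (D_ne h (subset_closure (ph_U h hζ))) ?_
  filter_upwards [h1] with w hw
  exact B_ph h hw

theorem ph_deriv {ζ : ℂ} (hζ : ζ ∈ closedBall (0 : ℂ) 1) :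
    HasDerivWithinAt (ph n) (ph' n ζ) (closedBall 0 1) ζ := by
  have hcl : closure (ball (0 : ℂ) 1) = closedBall 0 1 := closure_ball _ one_ne_zero
  have hfd : ∀ y ∈ ball (0 : ℂ) 1, fderiv ℝ (ph n) y =
      (ContinuousLinearMap.toSpanSingleton ℂ (ph' n y)).restrictScalars ℝ := by
    intro y hy
    exact ((ph_deriv_in h hy).hasFDerivAt.restrictScalars ℝ).fderiv
  have h1 : HasFDerivWithinAt (ph n)
      ((ContinuousLinearMap.toSpanSingleton ℂ (ph' n ζ)).restrictScalars ℝ)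
      (closure (ball (0 : ℂ) 1)) ζ := by
    refine hasFDerivWithinAt_closure_of_tendsto_fderiv ?_ (convex_ball _ _) isOpen_ball ?_ ?_
    · intro y hy
      exact ((ph_deriv_in h hy).hasFDerivAt.restrictScalars ℝ).differentiableAt.differentiableWithinAt
    · intro y hy
      rw [hcl] at hy
      exact (ph_cont h y hy).mono ball_subset_closedBall
    · have h2 : Tendsto (ph' n) (𝓝[ball 0 1] ζ) (𝓝 (ph' n ζ)) :=
        (ph'_cont h ζ hζ).mono ball_subset_closedBall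
      have h3 : Continuous (fun a : ℂ =>
          (ContinuousLinearMap.toSpanSingleton ℂ a).restrictScalars ℝ) := by
        have h4 : Continuous (fun a : ℂ => (ContinuousLinearMap.toSpanSingleton ℂ a)) :=
          (ContinuousLinearMap.toSpanSingletonLIE ℂ ℂ).continuous
        exact (ContinuousLinearMap.restrictScalarsL ℂ ℂ ℂ ℝ ℝ).continuous.comp h4
      refine ((h3.tendsto _).comp h2).congr' ?_
      filter_upwards [self_mem_nhdsWithin] with y hy
      exact (hfd y hy).symm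
  rw [hcl] at h1
  exact (h1.of_restrictScalars ℝ rfl : HasFDerivWithinAt (ph n)
    (ContinuousLinearMap.toSpanSingleton ℂ (ph' n ζ)) (closedBall 0 1) ζ)

theorem ph_inj : InjOn (ph n) (closedBall 0 1) := by
  intro ζ hζ ζ' hζ' he
  rw [← B_ph h hζ, ← B_ph h hζ', he]

theorem ph_ball : ph n '' ball 0 1 = U n := by
  apply Subset.antisymm
  · rintro _ ⟨ζ, hζ, rfl⟩
    exact ph_U h hζ
  · intro z hz
    exact ⟨B n z, B_image_sub h ⟨z, hz, rfl⟩, ph_B h (subset_closure hz)⟩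

theorem ph_closedBall : ph n '' closedBall 0 1 = closure (U n) := by
  apply Subset.antisymm
  · rintro _ ⟨ζ, hζ, rfl⟩
    exact ph_mem h hζ
  · intro z hz
    refine ⟨B n z, ?_, ph_B h hz⟩
    rw [← B_image_W h]
    exact ⟨z, hz, rfl⟩

theorem ph_sphere : ph n '' sphere 0 1 = frontier (U n) := by
  rw [(U_open n).frontier_eq, ← ph_closedBall h, ← ph_ball h,
    ← (ph_inj h).image_sdiff_subset ball_subset_closedBall, closedBall_sdiff_ball]

theorem ph_zero : ph n 0 = n := by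
  have h1 : B n n = 0 := by unfold B; simp
  rw [← h1]
  exact ph_B h (subset_closure (self_mem n))

end

theorem AL_step {C : ℝ} {n : ℤ} (h : GT C n) : AL C (T n) ≤ AL C n := by
  unfold AL
  rw [h.hs.tsum_eq_zero_add]
  have h1 := al_nonneg h.he (T^[0] n)
  have h2 : ∀ i : ℕ, al C (T^[i] (T n)) = al C (T^[i + 1] n) := fun i => rfl
  simp_rw [h2]
  linarith

theorem GT_step {C : ℝ} {n : ℤ} (h : GT C n) : GT C (T n) where
  he := h.he
  hw := wild_iter h.hw 1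
  tl := Tl_step h.tl
  hs := (summable_nat_add_iff 1).2 h.hs
  hA := (AL_step h).trans h.hA
  sub := fun j => h.sub (j + 1)
  inn := fun j => h.inn (j + 1)

theorem f₀_W {n : ℤ} {z : ℂ} (hz : z ∈ closure (U n)) : f₀ z ∈ closure (U (T n)) := by
  have h1 : f₀ '' U n ⊆ U (T n) := by
    rintro _ ⟨w, hw, rfl⟩
    exact f₀_iter_mem n 1 hw
  exact closure_mono h1 (image_closure_subset_closure_image f₀_cont ⟨z, hz, rfl⟩)

theorem ph_eq {C : ℝ} {n : ℤ} (h : GT C n) {ζ : ℂ} (hζ : ζ ∈ closedBall (0 : ℂ) 1) :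
    f₀ (ph n ζ) = ph (T n) (sg n * ζ ^ 2) := by
  have h1 := B_rec h.he h.tl (W_sub_K h (ph_mem h hζ))
  rw [B_ph h hζ] at h1
  rw [← h1]
  exact (ph_B (GT_step h) (f₀_W (ph_mem h hζ))).symm

end Pool.Agent.P8H70.WD
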