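import Mathlib
import Pool.Agent.P8H70.WD.Inv
import Pool.Agent.Y804.WD.Loop

/-! The Hausdorff dimension of preimages of sets under entire functions, and of the boundaries of the
Fatou components of `f₀` which are mapped to a wandering domain that contains an integer. -/

set_option autoImplicit false

open Filter Topology Metric Set

namespace Pool.Agent.P8H70.WD

open Pool.Agent.H384R2.Fatou Pool.Agent.H723R2.LSW Pool.Agent.Y282.WD

/-- at the points where the derivative is not zero -/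
theorem dimH_pre_reg {G : ℂ → ℂ} (hG : Differentiable ℂ G) {E Γ : Set ℂ}
    (h0 : ∀ x ∈ E, deriv G x ≠ 0) (hΓ : MapsTo G E Γ) : dimH E ≤ dimH Γ := by
  by_contra hcon
  push Not at hcon
  obtain ⟨x, hx, hxt⟩ := exists_mem_nhdsWithin_lt_dimH_of_lt_dimH hcon
  have hs : HasStrictDerivAt G (deriv G x) x :=
    (hG.contDiff (n := 1)).contDiffAt.hasStrictDerivAt one_ne_zero
  obtain ⟨K, s, hsn, hK⟩ := (hs.to_localInverse (h0 x hx)).hasStrictFDerivAt.exists_lipschitzOnWith
  have h1 := hs.eventually_left_inverse (h0 x hx)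
  have h2 : ∀ᶠ y in 𝓝 x, G y ∈ s := hG.continuous.continuousAt.eventually_mem hsn
  have ht : {y | y ∈ E ∧ hs.localInverse G _ x (h0 x hx) (G y) = y ∧ G y ∈ s} ∈ 𝓝[E] x := by
    filter_upwards [self_mem_nhdsWithin, nhdsWithin_le_nhds h1, nhdsWithin_le_nhds h2] with y a b c
    exact ⟨a, b, c⟩
  have h3 := hxt _ ht
  refine absurd h3 (not_lt.2 ?_)
  have hsub : {y | y ∈ E ∧ hs.localInverse G _ x (h0 x hx) (G y) = y ∧ G y ∈ s} ⊆
      hs.localInverse G _ x (h0 x hx) '' (Γ ∩ s) := by
    rintro y ⟨a, b, c⟩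
    exact ⟨G y, ⟨hΓ a, c⟩, b⟩
  calc _ ≤ _ := dimH_mono hsub
    _ ≤ dimH (Γ ∩ s) := (hK.mono inter_subset_right).dimH_image_le
    _ ≤ dimH Γ := dimH_mono inter_subset_left

/-- preimages under entire functions -/
theorem dimH_pre {G : ℂ → ℂ} (hG : Differentiable ℂ G) (hne : ∃ x, deriv G x ≠ 0) (Γ : Set ℂ) :
    dimH (G ⁻¹' Γ) ≤ dimH Γ := by
  by_contra hcon
  push Not at hcon
  obtain ⟨x, hx, hxt⟩ := exists_mem_nhdsWithin_lt_dimH_of_lt_dimH hcon
  have han : AnalyticOnNhd ℂ (deriv G) univ :=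
    (hG.differentiableOn.analyticOnNhd isOpen_univ).deriv
  rcases (han x (mem_univ x)).eventually_eq_zero_or_eventually_ne_zero with h | h
  · obtain ⟨y, hy⟩ := hne
    exact hy (han.eqOn_zero_of_preconnected_of_eventuallyEq_zero isPreconnected_univ (mem_univ x) h
      (mem_univ y))
  · have ht : ({x} ∪ {y | y ∈ G ⁻¹' Γ ∧ deriv G y ≠ 0}) ∈ 𝓝[G ⁻¹' Γ] x := by
      have h' := eventually_nhdsWithin_iff.1 h
      filter_upwards [self_mem_nhdsWithin, nhdsWithin_le_nhds h'] with y a b
      by_cases hyx : y = x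
      · exact Or.inl hyx
      · exact Or.inr ⟨a, b hyx⟩
    have h3 := hxt _ ht
    refine absurd h3 (not_lt.2 ?_)
    rw [dimH_union, dimH_singleton]
    exact max_le bot_le (dimH_pre_reg hG (fun y hy => hy.2) fun y hy => hy.1)

/-- the projections of a bounded open set and of its boundary -/
theorem re_image_sub {V : Set ℂ} (ho : IsOpen V) (hb : Bornology.IsBounded V) :
    Complex.re '' V ⊆ Complex.re '' frontier V := by
  rintro _ ⟨v, hv, rfl⟩
  obtain ⟨A, hA⟩ : ∃ A : Set ℝ, A = {t : ℝ | (⟨v.re, t⟩ : ℂ) ∈ V} := ⟨_, rfl⟩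
  have hc : Continuous (fun t : ℝ => (⟨v.re, t⟩ : ℂ)) := by
    have : (fun t : ℝ => (⟨v.re, t⟩ : ℂ)) = fun t : ℝ => (v.re : ℂ) + t * Complex.I := by
      funext t; apply Complex.ext <;> simp
    rw [this]; fun_prop
  have hAo : IsOpen A := by rw [hA]; exact ho.preimage hc
  have hAne : A.Nonempty := ⟨v.im, by rw [hA]; exact hv⟩
  have hAu : A ≠ univ := by
    intro hu
    obtain ⟨R, hR⟩ := (isBounded_iff_subset_closedBall 0).1 hb
    have h2 : |R| + 1 ∈ A := by rw [hu]; trivial
    rw [hA] at h2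
    have h3 := hR h2
    rw [mem_closedBall_zero_iff] at h3
    have h4 := Complex.abs_im_le_norm (⟨v.re, |R| + 1⟩ : ℂ)
    simp only at h4
    rw [abs_of_nonneg (by positivity)] at h4
    have := le_abs_self R
    linarith
  obtain ⟨t, ht⟩ := nonempty_frontier_iff.2 ⟨hAne, hAu⟩
  rw [hAo.frontier_eq] at ht
  refine ⟨⟨v.re, t⟩, ?_, rfl⟩
  rw [ho.frontier_eq]
  refine ⟨?_, fun h => ht.2 (by rw [hA]; exact h)⟩
  have h2 : (fun t : ℝ => (⟨v.re, t⟩ : ℂ)) '' A ⊆ V := by
    rintro _ ⟨s, hs, rfl⟩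
    rw [hA] at hs
    exact hs
  exact closure_mono h2 (image_closure_subset_closure_image hc ⟨t, ht.1, rfl⟩)

/-- the boundary of a bounded open set has dimension at least one -/
theorem one_le_dimH_frontier {V : Set ℂ} (ho : IsOpen V) (hne : V.Nonempty)
    (hb : Bornology.IsBounded V) : 1 ≤ dimH (frontier V) := by
  have h2 : dimH (Complex.re '' frontier V) ≤ dimH (frontier V) :=
    Complex.reCLM.lipschitz.dimH_image_le _
  have h3 : dimH (Complex.re '' V) = 1 := by
    have h4 := Real.dimH_of_nonempty_interior (s := Complex.re '' V) (by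
      rw [(Complex.isOpenMap_re _ ho).interior_eq]
      exact hne.image _)
    simpa using h4
  calc (1 : ENNReal) = dimH (Complex.re '' V) := h3.symm
    _ ≤ dimH (Complex.re '' frontier V) := dimH_mono (re_image_sub ho hb)
    _ ≤ _ := h2

theorem dimH_sphere : dimH (sphere (0 : ℂ) 1) ≤ 1 := by
  have h1 : sphere (0 : ℂ) 1 ⊆ range (fun θ : ℝ => Complex.exp (θ * Complex.I)) := by
    intro z hz
    refine ⟨Complex.arg z, ?_⟩
    have h2 := Complex.norm_mul_exp_arg_mul_I z
    rw [mem_sphere_zero_iff_norm.1 hz, Complex.ofReal_one, one_mul] at h2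
    exact h2
  have h2 : ContDiff ℝ 1 (fun θ : ℝ => Complex.exp (θ * Complex.I)) := by
    have h3 : ContDiff ℝ 1 (fun θ : ℝ => (θ : ℂ)) := Complex.ofRealCLM.contDiff
    exact (h3.mul contDiff_const).cexp
  refine (dimH_mono h1).trans ((h2.dimH_range_le).trans ?_)
  simp

theorem dimH_frontier_le {C : ℝ} {n : ℤ} (h : GT C n) : dimH (frontier (U n)) ≤ 1 := by
  rw [← ph_sphere h]
  have hr := rho_pos n
  have : LipschitzOnWith (Real.toNNReal (2 * rho n)) (ph n) (sphere 0 1) := by
    refine LipschitzOnWith.of_dist_le_mul fun x hx y hy => ?_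
    rw [dist_eq_norm, dist_eq_norm, Real.coe_toNNReal _ (by positivity)]
    exact ph_lip h (sphere_subset_closedBall hx) (sphere_subset_closedBall hy)
  exact this.dimH_image_le.trans dimH_sphere

theorem T_pow (N : ℕ) (m : ℤ) : T^[N] (2 ^ N * m) = m := by
  induction N generalizing m with
  | zero => simp
  | succ N ih =>
    rw [Function.iterate_succ_apply]
    have h3 : (2 : ℤ) ^ (N + 1) * m = 2 * (2 ^ N * m) := by ring
    rw [h3, T_even]
    exact ih m

theorem iter_deriv_ne (N : ℕ) : ∃ x, deriv (f₀^[N]) x ≠ 0 := by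
  by_contra hcon
  push Not at hcon
  have h1 := is_const_of_deriv_eq_zero (f₀_differentiable.iterate N) hcon
  have h4 := h1 ((2 ^ N * 0 : ℤ) : ℂ) ((2 ^ N * 1 : ℤ) : ℂ)
  rw [f₀_iter, f₀_iter, T_pow, T_pow] at h4
  norm_num at h4

/-- preconnected sets with bounded image are bounded -/
theorem bounded_pre {V : Set ℂ} (hV : IsPreconnected V) (hb : Bornology.IsBounded (f₀ '' V)) :
    Bornology.IsBounded V := by
  rcases V.eq_empty_or_nonempty with rfl | ⟨v, hv⟩
  · exact Bornology.isBounded_empty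
  obtain ⟨R, hR⟩ := (isBounded_iff_subset_closedBall 0).1 hb
  obtain ⟨m, hm1, hm2⟩ := ((Pool.Agent.Y804.WD.loop R).and
    (tendsto_natCast_atTop_atTop (R := ℝ) |>.eventually (eventually_gt_atTop ‖v‖))).exists
  have hcont : Continuous fun z : ℂ => max |z.re| |z.im| := by fun_prop
  have hm0 : (0 : ℝ) ≤ m := by positivity
  have h0 : max |v.re| |v.im| ≤ 2 * (m : ℝ) + 1 / 2 := by
    have h1 := Complex.abs_re_le_norm v
    have h2 := Complex.abs_im_le_norm v
    apply max_le <;> linarith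
  have hlt : ∀ z ∈ V, max |z.re| |z.im| < 2 * (m : ℝ) + 1 / 2 := by
    intro z hz
    by_contra hcon
    push Not at hcon
    obtain ⟨w, hwU, hws⟩ := conn_level hV hcont hv hz h0 hcon
    have h1 := hm1 w hws
    have h4 := hR ⟨w, hwU, rfl⟩
    rw [mem_closedBall_zero_iff] at h4
    linarith
  apply (isBounded_closedBall (x := (0 : ℂ)) (r := 2 * (2 * (m : ℝ) + 1 / 2))).subset
  intro z hz
  rw [mem_closedBall_zero_iff]
  have h1 := hlt z hz
  rw [max_lt_iff] at h1
  have := Complex.norm_le_abs_re_add_abs_im z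
  linarith [h1.1, h1.2]

theorem comp_bounded (k : ℕ) : ∀ z ∈ FatouSet f₀,
    Bornology.IsBounded (FatouComponent f₀ (f₀^[k] z)) →
      Bornology.IsBounded (FatouComponent f₀ z) := by
  induction k with
  | zero => exact fun z _ h => h
  | succ k ih =>
    intro z hz h
    rw [Function.iterate_succ_apply] at h
    have h1 : f₀ z ∈ FatouSet f₀ := fatou_forward_iter f₀_open hz 1
    have h2 := ih (f₀ z) h1 h
    refine bounded_pre isPreconnected_connectedComponentIn (h2.subset ?_)
    exact component_map f₀_differentiable.continuous f₀_open hz 1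

theorem frontier_sub {z : ℂ} (hz : z ∈ FatouSet f₀) {k : ℕ} {m : ℤ} (h : f₀^[k] z ∈ U m) :
    frontier (FatouComponent f₀ z) ⊆ f₀^[k] ⁻¹' frontier (U m) := by
  intro w hw
  have ho : IsOpen (FatouComponent f₀ z) := component_isOpen f₀ z
  rw [ho.frontier_eq] at hw
  have hmap : f₀^[k] '' FatouComponent f₀ z ⊆ U m := by
    refine (component_map f₀_cont f₀_open hz k).trans (le_of_eq ?_)
    exact (connectedComponentIn_eq h).symm
  rw [mem_preimage, (U_open m).frontier_eq]
  refine ⟨closure_mono hmap (image_closure_subset_closure_image (f₀_cont.iterate k)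
    ⟨w, hw.1, rfl⟩), fun hU => hw.2 ?_⟩
  have hF : w ∈ FatouSet f₀ := back_iter k (connectedComponentIn_subset _ _ hU)
  have hV : IsOpen (FatouComponent f₀ w) := component_isOpen f₀ w
  have hwV : w ∈ FatouComponent f₀ w := mem_connectedComponentIn hF
  obtain ⟨y, hy1, hy2⟩ := mem_closure_iff.1 hw.1 _ hV hwV
  have h1 : connectedComponentIn (FatouSet f₀) w = connectedComponentIn (FatouSet f₀) y :=
    connectedComponentIn_eq hy1
  have h2 : connectedComponentIn (FatouSet f₀) z = connectedComponentIn (FatouSet f₀) y :=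
    connectedComponentIn_eq hy2
  show w ∈ connectedComponentIn (FatouSet f₀) z
  rw [h2, ← h1]
  exact hwV

theorem dim_one {C : ℝ} {m : ℤ} (h : GT C m) {z : ℂ} (hz : z ∈ FatouSet f₀) {k : ℕ}
    (hk : f₀^[k] z ∈ U m) :
    Bornology.IsBounded (FatouComponent f₀ z) ∧ dimH (frontier (FatouComponent f₀ z)) = 1 := by
  have hb : Bornology.IsBounded (FatouComponent f₀ z) := by
    refine comp_bounded k z hz ?_
    have h1 : FatouComponent f₀ (f₀^[k] z) = U m := (connectedComponentIn_eq hk).symm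
    rw [h1]
    exact isBounded_closedBall.subset (h.sub 0)
  refine ⟨hb, le_antisymm ?_ ?_⟩
  · calc _ ≤ dimH (f₀^[k] ⁻¹' frontier (U m)) := dimH_mono (frontier_sub hz hk)
      _ ≤ dimH (frontier (U m)) := dimH_pre (f₀_differentiable.iterate k) (iter_deriv_ne k) _
      _ ≤ 1 := dimH_frontier_le h
  · exact one_le_dimH_frontier (component_isOpen f₀ z) ⟨z, mem_connectedComponentIn hz⟩ hb

end Pool.Agent.P8H70.WD
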