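import Mathlib
import Pool.Agent.P8H70.WD.Dim
import Pool.Agent.Y514.WD.Sch
import Pool.Agent.Y319.WD.Har
import Pool.Agent.Y98.WD.Inv

/-! The hypotheses `GT` hold for the wandering integers whose orbits stay away from the origin. -/

set_option autoImplicit false

open Filter Topology Metric Set

namespace Pool.Agent.P8H70.WD

open Pool.Agent.H384R2.Fatou Pool.Agent.H723R2.LSW Pool.Agent.Y282.WD

theorem exists_GT : ∃ C C0 : ℝ, 1 ≤ C0 ∧ ∀ (n : ℤ) (M : ℝ), Wild n → C0 ≤ M →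
    (∀ j : ℕ, M ≤ |((T^[j] n : ℤ) : ℝ)|) → GT C n ∧ 52 * AL C n ≤ C0 / M := by
  obtain ⟨C, hC1, e1, e2⟩ := expand
  obtain ⟨C2, hC2, hsh⟩ := Pool.Agent.Y282.WD.shape Pool.Agent.Y888.WD.t_NEAR
    Pool.Agent.Y888.WD.t_LOW Pool.Agent.Y151.WD.t_TAIL Pool.Agent.Y514.WD.sch
    Pool.Agent.Y319.WD.t_HAR Pool.Agent.Y804.WD.loop Pool.Agent.Y811.WD.t_BACK
    Pool.Agent.Y98.WD.t_INV
  have he : HE C := ⟨hC1, e1, e2⟩
  refine ⟨C, 800 * C + 2 * C2, by linarith, fun n M hw hM hj => ?_⟩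
  have hM1 : 1 ≤ M := by linarith
  have hM0 : 0 < M := by linarith
  obtain ⟨hs0, hsum⟩ := inv_sq hw hM1 hj
  have hb : ∀ j : ℕ, |((T^[j] n : ℤ) : ℝ)| ≤ bt (T^[j] n) := fun j =>
    bt_ge (hM1.trans (hj j)) le_rfl
  have hx : ∀ j : ℕ, 0 < |((T^[j] n : ℤ) : ℝ)| := fun j => lt_of_lt_of_le hM0 (hj j)
  have hal : ∀ j : ℕ, al C (T^[j] n) ≤ 2 * C * (1 / ((T^[j] n : ℤ) : ℝ) ^ 2) := by
    intro j
    have h1 := hb j
    have h2 := hx j
    unfold al
    rw [mul_one_div, ← sq_abs (((T^[j] n : ℤ) : ℝ))]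
    gcongr
  have hs : Summable (fun i : ℕ => al C (T^[i] n)) :=
    Summable.of_nonneg_of_le (fun i => al_nonneg he _) hal (hs0.mul_left _)
  have hAL : AL C n ≤ 8 * C / M := by
    calc AL C n ≤ ∑' j : ℕ, 2 * C * (1 / ((T^[j] n : ℤ) : ℝ) ^ 2) := hs.tsum_le_tsum hal (hs0.mul_left _)
      _ = 2 * C * ∑' j : ℕ, 1 / ((T^[j] n : ℤ) : ℝ) ^ 2 := tsum_mul_left
      _ ≤ 2 * C * (4 / M) := by gcongr
      _ = 8 * C / M := by ring
  have hin : ∀ j : ℕ, ∀ i : ℕ, M ≤ |((T^[i] (T^[j] n) : ℤ) : ℝ)| := by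
    intro j i
    rw [← Function.iterate_add_apply]
    exact hj (i + j)
  have hdel : C2 / M ^ 2 ≤ 1 / 2 := by
    rw [div_le_iff₀ (by positivity)]
    nlinarith
  refine ⟨⟨he, hw, fun i => ?_, hs, ?_, fun j => ?_, fun j => ?_⟩, ?_⟩
  · have := (hj i).trans (hb i)
    linarith
  · refine hAL.trans ?_
    rw [div_le_iff₀ hM0]
    linarith
  · obtain ⟨-, h2, -, -⟩ := (hsh (T^[j] n) (wild_iter hw j)).2.2.2 M (by linarith) (hin j)
    refine h2.trans (closedBall_subset_closedBall ?_)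
    have := rho_pos (T^[j] n)
    apply mul_le_mul_of_nonneg_right _ this.le
    linarith
  · obtain ⟨h2, -, -, -⟩ := (hsh (T^[j] n) (wild_iter hw j)).2.2.2 M (by linarith) (hin j)
    refine Subset.trans (ball_subset_ball ?_) h2
    have := rho_pos (T^[j] n)
    rw [div_eq_inv_mul]
    apply mul_le_mul_of_nonneg_right _ this.le
    linarith
  · calc 52 * AL C n ≤ 52 * (8 * C / M) := by gcongr
      _ = 416 * C / M := by ring
      _ ≤ _ := by gcongr; linarith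

/-- every wandering integer has such iterates -/
theorem eventually_tail {n : ℤ} (hw : Wild n) (M : ℝ) :
    ∃ k : ℕ, ∀ j : ℕ, M ≤ |((T^[j] (T^[k] n) : ℤ) : ℝ)| := by
  have h := wild_tendsto hw
  rw [Filter.tendsto_atTop] at h
  obtain ⟨k, hk⟩ := eventually_atTop.1 (h M)
  refine ⟨k, fun j => ?_⟩
  rw [← Function.iterate_add_apply]
  exact hk (j + k) (by omega)

end Pool.Agent.P8H70.WD
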