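import Mathlib
import Pool.Agent.P8H70.WD.Dim

/-! Preimages of curves of finite length under entire functions have locally finite length. -/

set_option autoImplicit false

open Filter Topology Metric Set MeasureTheory
open scoped ENNReal NNReal

namespace Pool.Agent.P8H70.WD

open Pool.Agent.H384R2.Fatou Pool.Agent.H723R2.LSW Pool.Agent.Y282.WD

/-- length -/
noncomputable abbrev len (s : Set ℂ) : ℝ≥0∞ := Measure.hausdorffMeasure 1 s

theorem local_anti {f : ℂ → ℂ} {f' x : ℂ} (h : HasStrictDerivAt f f' x) (h0 : f' ≠ 0) :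
    ∃ s ∈ 𝓝 x, ∀ a ∈ s, ∀ b ∈ s, ‖f'‖ / 2 * ‖a - b‖ ≤ ‖f a - f b‖ := by
  have hf : 0 < ‖f'‖ := norm_pos_iff.2 h0
  have h1 := h.isLittleO.def (c := ‖f'‖ / 2) (by positivity)
  rw [nhds_prod_eq, Filter.eventually_iff, Filter.mem_prod_self_iff] at h1
  obtain ⟨s, hs, hh⟩ := h1
  refine ⟨s, hs, fun a ha b hb => ?_⟩
  have h2 : ‖f a - f b - (ContinuousLinearMap.toSpanSingleton ℂ f') (a - b)‖ ≤
      ‖f'‖ / 2 * ‖a - b‖ := hh (show (a, b) ∈ s ×ˢ s from ⟨ha, hb⟩)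
  simp only [ContinuousLinearMap.toSpanSingleton_apply, smul_eq_mul] at h2
  have h3 : ‖(a - b) * f'‖ ≤ ‖f a - f b‖ + ‖f a - f b - (a - b) * f'‖ := by
    have := norm_sub_le (f a - f b) (f a - f b - (a - b) * f')
    rwa [sub_sub_cancel] at this
  rw [norm_mul] at h3
  nlinarith [norm_nonneg (a - b)]

theorem len_anti {f : ℂ → ℂ} {S Γ : Set ℂ} {c : ℝ} (hc : 0 < c)
    (h : ∀ a ∈ S, ∀ b ∈ S, c * ‖a - b‖ ≤ ‖f a - f b‖) (hm : MapsTo f S Γ) :
    len S ≤ ENNReal.ofReal c⁻¹ * len Γ := by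
  have hinj : InjOn f S := by
    intro a ha b hb hab
    have h1 := h a ha b hb
    rw [hab, sub_self, norm_zero] at h1
    have h2 : ‖a - b‖ ≤ 0 := by
      by_contra hcon
      push Not at hcon
      nlinarith
    exact sub_eq_zero.1 (norm_eq_zero.1 (le_antisymm h2 (norm_nonneg _)))
  have hlip : LipschitzOnWith (Real.toNNReal c⁻¹) (Function.invFunOn f S) (f '' S) := by
    refine LipschitzOnWith.of_dist_le_mul ?_
    rintro _ ⟨a, ha, rfl⟩ _ ⟨b, hb, rfl⟩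
    rw [hinj.leftInvOn_invFunOn ha, hinj.leftInvOn_invFunOn hb, dist_eq_norm, dist_eq_norm,
      Real.coe_toNNReal _ (by positivity), inv_mul_eq_div, le_div_iff₀ hc, mul_comm]
    exact h a ha b hb
  have himg : Function.invFunOn f S '' (f '' S) = S := by
    ext x
    constructor
    · rintro ⟨_, ⟨a, ha, rfl⟩, rfl⟩
      rw [hinj.leftInvOn_invFunOn ha]
      exact ha
    · intro hx
      exact ⟨f x, ⟨x, hx, rfl⟩, hinj.leftInvOn_invFunOn hx⟩
  have h1 := hlip.hausdorffMeasure_image_le (d := 1) zero_le_one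
  rw [himg, ENNReal.rpow_one] at h1
  refine h1.trans ?_
  have h2 : f '' S ⊆ Γ := hm.image_subset
  exact mul_le_mul_right (measure_mono h2) _

/-- finitely many pieces of an annulus on which the power is injective -/
theorem annulus (d : ℕ) (hd : 0 < d) : ∃ (I : Finset ℂ) (S : ℂ → Set ℂ) (c : ℝ), 0 < c ∧
    (∀ i ∈ I, ∀ a ∈ S i, ∀ b ∈ S i, c * ‖a - b‖ ≤ ‖a ^ d - b ^ d‖) ∧
    ∀ u : ℂ, 1 / 2 ≤ ‖u‖ → ‖u‖ ≤ 1 → ∃ i ∈ I, u ∈ S i := by
  have hK : IsCompact {u : ℂ | 1 / 2 ≤ ‖u‖ ∧ ‖u‖ ≤ 1} := by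
    refine (isCompact_closedBall (0 : ℂ) 1).of_isClosed_subset ?_ ?_
    · exact (isClosed_le continuous_const continuous_norm).inter
        (isClosed_le continuous_norm continuous_const)
    · intro u hu
      rw [mem_closedBall_zero_iff]
      exact hu.2
  have hloc : ∀ x : ℂ, ∃ s : Set ℂ, 1 / 2 ≤ ‖x‖ → s ∈ 𝓝 x ∧ ∀ a ∈ s, ∀ b ∈ s,
      ‖(d : ℂ) * x ^ (d - 1)‖ / 2 * ‖a - b‖ ≤ ‖a ^ d - b ^ d‖ := by
    intro x
    by_cases hx : 1 / 2 ≤ ‖x‖
    · have hx0 : x ≠ 0 := by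
        rintro rfl
        norm_num at hx
      obtain ⟨s, h1, h2⟩ := local_anti (hasStrictDerivAt_pow d x)
        (mul_ne_zero (by exact_mod_cast hd.ne') (pow_ne_zero _ hx0))
      exact ⟨s, fun _ => ⟨h1, h2⟩⟩
    · exact ⟨∅, fun h => absurd h hx⟩
  choose S hS using hloc
  obtain ⟨I, hI1, hI2⟩ := hK.elim_nhds_subcover S (fun x hx => (hS x hx.1).1)
  refine ⟨I, S, (1 / 2) ^ (d - 1) / 2, by positivity, fun i hi a ha b hb => ?_, fun u h1 h2 => ?_⟩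
  · refine le_trans ?_ ((hS i (hI1 i hi).1).2 a ha b hb)
    gcongr
    rw [norm_mul, norm_pow, Complex.norm_natCast]
    have h3 : (1 / 2 : ℝ) ^ (d - 1) ≤ ‖i‖ ^ (d - 1) := by
      have := (hI1 i hi).1
      gcongr
    have h4 : (1 : ℝ) ≤ d := by exact_mod_cast hd
    calc (1 / 2 : ℝ) ^ (d - 1) = 1 * (1 / 2) ^ (d - 1) := (one_mul _).symm
      _ ≤ _ := by gcongr
  · have := hI2 (show u ∈ {u : ℂ | 1 / 2 ≤ ‖u‖ ∧ ‖u‖ ≤ 1} from ⟨h1, h2⟩)
    simpa using this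

/-- preimages under powers -/
theorem len_pow {Γ : Set ℂ} {p : ℂ} {C : ℝ} (hC : 0 ≤ C)
    (hΓ : ∀ s : ℝ, 0 < s → len (Γ ∩ closedBall p s) ≤ ENNReal.ofReal (C * s)) (d : ℕ) (hd : 0 < d) :
    len {u : ℂ | ‖u‖ ≤ 1 ∧ p + u ^ d ∈ Γ} < ⊤ := by
  obtain ⟨I, S, c, hc, hS, hcov⟩ := annulus d hd
  -- one annulus
  have h1 : ∀ t : ℝ, 0 < t → len {u : ℂ | t / 2 ≤ ‖u‖ ∧ ‖u‖ ≤ t ∧ p + u ^ d ∈ Γ} ≤
      I.card * ENNReal.ofReal (C / c * t) := by
    intro t ht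
    have hsub : {u : ℂ | t / 2 ≤ ‖u‖ ∧ ‖u‖ ≤ t ∧ p + u ^ d ∈ Γ} ⊆
        ⋃ i ∈ I, {u : ℂ | ‖u‖ ≤ t ∧ u / t ∈ S i ∧ p + u ^ d ∈ Γ} := by
      rintro u ⟨h2, h3, h4⟩
      have h5 : ‖u / t‖ = ‖u‖ / t := by
        rw [norm_div, Complex.norm_real, Real.norm_of_nonneg ht.le]
      obtain ⟨i, hi, hu⟩ := hcov (u / t) (by rw [h5, le_div_iff₀ ht]; linarith)
        (by rw [h5, div_le_one ht]; exact h3)
      exact mem_biUnion hi ⟨h3, hu, h4⟩
    refine (measure_mono hsub).trans ((measure_biUnion_finset_le _ _).trans ?_)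
    have h2 : ∀ i ∈ I, len {u : ℂ | ‖u‖ ≤ t ∧ u / t ∈ S i ∧ p + u ^ d ∈ Γ} ≤
        ENNReal.ofReal (C / c * t) := by
      intro i hi
      have htc : (t : ℂ) ≠ 0 := by exact_mod_cast ht.ne'
      have h3 := len_anti (f := fun u : ℂ => p + u ^ d)
        (S := {u : ℂ | ‖u‖ ≤ t ∧ u / t ∈ S i ∧ p + u ^ d ∈ Γ}) (Γ := Γ ∩ closedBall p (t ^ d))
        (c := c * t ^ (d - 1)) (by positivity) (by
          rintro a ⟨ha1, ha2, ha3⟩ b ⟨hb1, hb2, hb3⟩
          have h4 := hS i hi _ ha2 _ hb2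
          rw [← sub_div, div_pow, div_pow, ← sub_div, norm_div, norm_div, norm_pow,
            Complex.norm_real, Real.norm_of_nonneg ht.le, le_div_iff₀ (by positivity)] at h4
          rw [add_sub_add_left_eq_sub]
          refine le_trans (le_of_eq ?_) h4
          obtain ⟨e, rfl⟩ : ∃ e, d = e + 1 := ⟨d - 1, by omega⟩
          rw [Nat.add_sub_cancel, pow_succ t e]
          field_simp) (by
          rintro u ⟨hu1, hu2, hu3⟩
          refine ⟨hu3, ?_⟩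
          rw [mem_closedBall, dist_eq_norm, add_sub_cancel_left, norm_pow]
          gcongr)
      refine h3.trans ?_
      calc _ ≤ ENNReal.ofReal (c * t ^ (d - 1))⁻¹ * ENNReal.ofReal (C * t ^ d) := by
            gcongr
            exact hΓ _ (by positivity)
        _ = ENNReal.ofReal (C / c * t) := by
          rw [← ENNReal.ofReal_mul (by positivity)]
          congr 1
          obtain ⟨e, rfl⟩ : ∃ e, d = e + 1 := ⟨d - 1, by omega⟩
          rw [Nat.add_sub_cancel, pow_succ t e]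
          field_simp
    calc _ ≤ ∑ i ∈ I, ENNReal.ofReal (C / c * t) := Finset.sum_le_sum h2
      _ = _ := by rw [Finset.sum_const, nsmul_eq_mul]
  have hsub : {u : ℂ | ‖u‖ ≤ 1 ∧ p + u ^ d ∈ Γ} ⊆ {0} ∪
      ⋃ j : ℕ, {u : ℂ | (1 / 2) ^ j / 2 ≤ ‖u‖ ∧ ‖u‖ ≤ (1 / 2) ^ j ∧ p + u ^ d ∈ Γ} := by
    rintro u ⟨h2, h3⟩
    by_cases hu : u = 0
    · exact Or.inl hu
    · right
      have hn : 0 < ‖u‖ := norm_pos_iff.2 hu
      obtain ⟨j, hj1, hj2⟩ := exists_nat_pow_near_of_lt_one (x := ‖u‖) (y := (1 / 2 : ℝ)) hn h2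
        (by norm_num) (by norm_num)
      refine mem_iUnion.2 ⟨j, ?_, hj2, h3⟩
      rw [pow_succ] at hj1
      linarith
  refine lt_of_le_of_lt ((measure_mono hsub).trans (measure_union_le _ _)) ?_
  have h0 : len {(0 : ℂ)} = 0 := by
    have := Measure.nullSingletonClass_hausdorff ℂ (d := 1) one_pos
    exact measure_singleton 0
  rw [show Measure.hausdorffMeasure 1 {(0 : ℂ)} = 0 from h0, zero_add]
  refine lt_of_le_of_lt (measure_iUnion_le _) ?_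
  calc ∑' j : ℕ, len {u : ℂ | (1 / 2) ^ j / 2 ≤ ‖u‖ ∧ ‖u‖ ≤ (1 / 2) ^ j ∧ p + u ^ d ∈ Γ}
      ≤ ∑' j : ℕ, I.card * ENNReal.ofReal (C / c * (1 / 2) ^ j) :=
        ENNReal.tsum_le_tsum fun j => h1 _ (by positivity)
    _ = I.card * ∑' j : ℕ, ENNReal.ofReal (C / c * (1 / 2) ^ j) := ENNReal.tsum_mul_left
    _ = I.card * ENNReal.ofReal (∑' j : ℕ, C / c * (1 / 2) ^ j) := by
        rw [ENNReal.ofReal_tsum_of_nonneg (fun j => by positivity)
          (summable_geometric_two.mul_left _)]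
    _ < ⊤ := ENNReal.mul_lt_top (by simp) ENNReal.ofReal_lt_top

end Pool.Agent.P8H70.WD
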