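import Mathlib
import Pool.Agent.P8H70.WD.Len

/-! The boundaries of the Fatou components of `f₀` which are mapped to a wandering domain that
contains an integer have finite length. -/

set_option autoImplicit false

open Filter Topology Metric Set MeasureTheory
open scoped ENNReal NNReal

namespace Pool.Agent.P8H70.WD

open Pool.Agent.H384R2.Fatou Pool.Agent.H723R2.LSW Pool.Agent.Y282.WD

/-- arcs of the unit circle -/
theorem len_arc {ζ₀ : ℂ} (h0 : ‖ζ₀‖ = 1) (δ : ℝ) :
    len (sphere 0 1 ∩ closedBall ζ₀ δ) ≤ ENNReal.ofReal (Real.pi * δ) := by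
  have hζ0 : ζ₀ ≠ 0 := by
    rintro rfl
    simp at h0
  have hsub : sphere (0 : ℂ) 1 ∩ closedBall ζ₀ δ ⊆
      (fun θ : ℝ => ζ₀ * Complex.exp (Complex.I * θ)) ''
        Icc (-(Real.pi * δ / 2)) (Real.pi * δ / 2) := by
    rintro ζ ⟨h1, h2⟩
    rw [mem_sphere_zero_iff_norm] at h1
    rw [mem_closedBall, dist_eq_norm] at h2
    have h3 : ‖ζ / ζ₀‖ = 1 := by rw [norm_div, h1, h0, div_one]
    have h4 : Complex.exp (Complex.I * Complex.arg (ζ / ζ₀)) = ζ / ζ₀ := by
      have := Complex.norm_mul_exp_arg_mul_I (ζ / ζ₀)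
      rw [h3, Complex.ofReal_one, one_mul] at this
      rw [mul_comm]
      exact this
    refine ⟨Complex.arg (ζ / ζ₀), ?_, ?_⟩
    · have h5 : ‖Complex.exp (Complex.I * Complex.arg (ζ / ζ₀)) - 1‖ ≤ δ := by
        rw [h4]
        have : ζ / ζ₀ - 1 = (ζ - ζ₀) / ζ₀ := by field_simp
        rw [this, norm_div, h0, div_one]
        exact h2
      rw [Complex.norm_exp_I_mul_ofReal_sub_one, norm_mul, Real.norm_ofNat, Real.norm_eq_abs] at h5
      have h6 := Complex.abs_arg_le_pi (ζ / ζ₀)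
      have h7 := Real.mul_abs_le_abs_sin (x := Complex.arg (ζ / ζ₀) / 2) (by
        rw [abs_div, abs_two]
        linarith)
      rw [abs_div, abs_two] at h7
      rw [mem_Icc, ← abs_le]
      have hp := Real.pi_pos
      have h8 : 2 / Real.pi * |Complex.arg (ζ / ζ₀)| ≤ δ := by linarith
      rw [div_mul_eq_mul_div, div_le_iff₀ hp] at h8
      linarith
    · simp only
      rw [h4, mul_div_cancel₀ _ hζ0]
  have hlip : LipschitzOnWith 1 (fun θ : ℝ => ζ₀ * Complex.exp (Complex.I * θ))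
      (Icc (-(Real.pi * δ / 2)) (Real.pi * δ / 2)) := by
    refine LipschitzOnWith.of_dist_le_mul fun x _ y _ => ?_
    rw [dist_eq_norm, dist_eq_norm, NNReal.coe_one, one_mul, ← mul_sub, norm_mul, h0, one_mul]
    have h1 : Complex.exp (Complex.I * x) - Complex.exp (Complex.I * y) =
        Complex.exp (Complex.I * y) * (Complex.exp (Complex.I * ((x - y : ℝ) : ℂ)) - 1) := by
      rw [mul_sub, ← Complex.exp_add, mul_one]
      congr 2
      push_cast
      ring
    rw [h1, norm_mul, mul_comm Complex.I (y : ℂ), Complex.norm_exp_ofReal_mul_I, one_mul]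
    exact Real.norm_exp_I_mul_ofReal_sub_one_le
  refine (measure_mono hsub).trans ((hlip.hausdorffMeasure_image_le zero_le_one).trans ?_)
  rw [hausdorffMeasure_real, Real.volume_Icc]
  simp only [ENNReal.coe_one, ENNReal.one_rpow, one_mul]
  apply ENNReal.ofReal_le_ofReal
  linarith

theorem ph_low {C : ℝ} {n : ℤ} (h : GT C n) {ζ ζ' : ℂ} (hζ : ζ ∈ closedBall (0 : ℂ) 1)
    (hζ' : ζ' ∈ closedBall (0 : ℂ) 1) : rho n * ‖ζ - ζ'‖ ≤ 2 * ‖ph n ζ - ph n ζ'‖ := by
  have h1 := B_lip h.he h.tl h.hs h.hA (W_sub_K h (ph_mem h hζ)) (W_sub_K h (ph_mem h hζ'))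
  rw [B_ph h hζ, B_ph h hζ'] at h1
  have h2 : ‖rho n * (ζ - ζ')‖ ≤ ‖rho n * (ζ - ζ') - (ph n ζ - ph n ζ')‖ + ‖ph n ζ - ph n ζ'‖ := by
    have := norm_add_le (rho n * (ζ - ζ') - (ph n ζ - ph n ζ')) (ph n ζ - ph n ζ')
    rwa [sub_add_cancel] at this
  have h3 : ‖rho n * (ζ - ζ')‖ = rho n * ‖ζ - ζ'‖ := by
    rw [norm_mul, Complex.norm_real, Real.norm_of_nonneg (rho_pos n).le]
  rw [h3] at h2
  have h4 := h.hA
  have h5 : 0 ≤ ‖ph n ζ - ph n ζ'‖ := norm_nonneg _
  nlinarith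

theorem len_Gamma {C : ℝ} {n : ℤ} (h : GT C n) {p : ℂ} (hp : p ∈ frontier (U n)) (s : ℝ) :
    len (frontier (U n) ∩ closedBall p s) ≤ ENNReal.ofReal (4 * Real.pi * s) := by
  rw [← ph_sphere h] at hp ⊢
  obtain ⟨ζ₀, hζ₀, rfl⟩ := hp
  have hr := rho_pos n
  have hsub : ph n '' sphere 0 1 ∩ closedBall (ph n ζ₀) s ⊆
      ph n '' (sphere 0 1 ∩ closedBall ζ₀ (2 * s / rho n)) := by
    rintro _ ⟨⟨ζ, hζ, rfl⟩, h2⟩
    refine ⟨ζ, ⟨hζ, ?_⟩, rfl⟩
    rw [mem_closedBall, dist_eq_norm] at h2 ⊢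
    have h3 := ph_low h (sphere_subset_closedBall hζ) (sphere_subset_closedBall hζ₀)
    rw [le_div_iff₀ hr]
    linarith
  have hlip : LipschitzOnWith (Real.toNNReal (2 * rho n)) (ph n)
      (sphere 0 1 ∩ closedBall ζ₀ (2 * s / rho n)) := by
    refine LipschitzOnWith.of_dist_le_mul fun x hx y hy => ?_
    rw [dist_eq_norm, dist_eq_norm, Real.coe_toNNReal _ (by positivity)]
    exact ph_lip h (sphere_subset_closedBall hx.1) (sphere_subset_closedBall hy.1)
  refine (measure_mono hsub).trans ((hlip.hausdorffMeasure_image_le zero_le_one).trans ?_)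
  rw [ENNReal.rpow_one]
  have h5 := len_arc (mem_sphere_zero_iff_norm.1 hζ₀) (2 * s / rho n)
  calc _ ≤ ENNReal.ofReal (2 * rho n) * ENNReal.ofReal (Real.pi * (2 * s / rho n)) :=
        mul_le_mul_right h5 _
    _ = ENNReal.ofReal (4 * Real.pi * s) := by
      rw [← ENNReal.ofReal_mul (by positivity)]
      congr 1
      field_simp
      ring

/-- local finiteness of the length of preimages -/
theorem len_local {G : ℂ → ℂ} (hG : Differentiable ℂ G) (hne : ∃ x, deriv G x ≠ 0) (w : ℂ)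
    {Γ : Set ℂ} {C : ℝ} (hC : 0 ≤ C)
    (hΓ : ∀ s : ℝ, 0 < s → len (Γ ∩ closedBall (G w) s) ≤ ENNReal.ofReal (C * s)) :
    ∃ s ∈ 𝓝 w, len (G ⁻¹' Γ ∩ s) < ⊤ := by
  have hGan : AnalyticOnNhd ℂ (fun y => G y - G w) univ :=
    (hG.sub_const _).differentiableOn.analyticOnNhd isOpen_univ
  have hnot : ¬ ∀ᶠ y in 𝓝 w, G y - G w = 0 := by
    intro hcon
    obtain ⟨x, hx⟩ := hne
    apply hx
    have h1 := hGan.eqOn_zero_of_preconnected_of_eventuallyEq_zero isPreconnected_univ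
      (mem_univ w) hcon
    have h2 : G = fun _ => G w := by
      funext y
      have := h1 (mem_univ y)
      exact sub_eq_zero.1 this
    rw [h2, deriv_const]
  obtain ⟨d, g, hg, hg0, hgeq⟩ :=
    ((hGan w (mem_univ w)).exists_eventuallyEq_pow_smul_nonzero_iff).2 hnot
  have hd : 0 < d := by
    rcases Nat.eq_zero_or_pos d with rfl | h
    · exfalso
      have h1 := hgeq.self_of_nhds
      simp only [sub_self, pow_zero, one_smul] at h1
      exact hg0 h1.symm
    · exact h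
  obtain ⟨c, hc⟩ := IsAlgClosed.exists_pow_nat_eq (g w) hd
  have hc0 : c ≠ 0 := by
    rintro rfl
    rw [zero_pow hd.ne'] at hc
    exact hg0 hc.symm
  have hH : AnalyticAt ℂ (fun y => c * Complex.exp (Complex.log (g y / g w) / d)) w := by
    have h1 : AnalyticAt ℂ (fun y => g y / g w) w := hg.div_const
    have h2 : AnalyticAt ℂ (fun y => Complex.log (g y / g w)) w :=
      h1.clog (by rw [div_self hg0]; exact Complex.one_mem_slitPlane)
    exact analyticAt_const.mul (h2.div_const).cexp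
  obtain ⟨H, hHdef⟩ : ∃ H : ℂ → ℂ, H = fun y => c * Complex.exp (Complex.log (g y / g w) / d) :=
    ⟨_, rfl⟩
  rw [← hHdef] at hH
  have hHw : H w = c := by
    rw [hHdef]
    simp [div_self hg0]
  have hψ : HasStrictDerivAt (fun y => (y - w) * H y) c w := by
    have h0 : HasStrictDerivAt (fun y => y - w) 1 w := (hasStrictDerivAt_id w).sub_const w
    have h1 : HasStrictDerivAt (fun y => (y - w) * H y) (1 * H w + (w - w) * deriv H w) w :=
      HasStrictDerivAt.fun_mul h0 hH.hasStrictDerivAt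
    refine h1.congr_deriv ?_
    simp [hHw]
  obtain ⟨s1, hs1, hanti⟩ := local_anti hψ hc0
  have hgne : ∀ᶠ y in 𝓝 w, g y ≠ 0 := hg.continuousAt.eventually_ne hg0
  have hev : ∀ᶠ y in 𝓝 w, G y = G w + ((y - w) * H y) ^ d := by
    filter_upwards [hgeq, hgne] with y h1 h2
    have h3 : H y ^ d = g y := by
      rw [hHdef]
      simp only
      rw [mul_pow, hc, ← Complex.exp_nat_mul, mul_div_cancel₀ _ (by exact_mod_cast hd.ne'),
        Complex.exp_log (div_ne_zero h2 hg0), mul_div_cancel₀ _ hg0]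
    rw [mul_pow, h3]
    rw [smul_eq_mul] at h1
    linear_combination h1
  have hsm : ∀ᶠ y in 𝓝 w, ‖(y - w) * H y‖ ≤ 1 := by
    have h1 : ContinuousAt (fun y => ‖(y - w) * H y‖) w := hψ.hasDerivAt.continuousAt.norm
    have h2 : ‖(w - w) * H w‖ < 1 := by simp
    filter_upwards [h1.eventually_lt_const h2] with y hy
    exact hy.le
  refine ⟨s1 ∩ {y | G y = G w + ((y - w) * H y) ^ d ∧ ‖(y - w) * H y‖ ≤ 1},
    inter_mem hs1 (hev.and hsm), ?_⟩
  have hpos : 0 < ‖c‖ / 2 := by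
    have := norm_pos_iff.2 hc0
    positivity
  refine lt_of_le_of_lt (len_anti (f := fun y => (y - w) * H y)
    (Γ := {u : ℂ | ‖u‖ ≤ 1 ∧ G w + u ^ d ∈ Γ}) hpos ?_ ?_) ?_
  · rintro a ⟨_, ha, _⟩ b ⟨_, hb, _⟩
    exact hanti a ha b hb
  · rintro y ⟨hy1, _, hy2, hy3⟩
    refine ⟨hy3, ?_⟩
    show G w + ((y - w) * H y) ^ d ∈ Γ
    rw [← hy2]
    exact hy1
  · exact ENNReal.mul_lt_top ENNReal.ofReal_lt_top (len_pow hC hΓ d hd)

theorem len_pos {V : Set ℂ} (ho : IsOpen V) (hne : V.Nonempty)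
    (hb : Bornology.IsBounded V) : 0 < len (frontier V) := by
  have h1 : Complex.re '' V ⊆ Complex.re '' frontier V := re_image_sub ho hb
  have h2 := (Complex.reCLM.lipschitz.lipschitzOnWith (s := frontier V)).hausdorffMeasure_image_le
    (d := 1) zero_le_one
  rw [hausdorffMeasure_real, ENNReal.rpow_one] at h2
  have h3 : 0 < volume (Complex.re '' V) :=
    (Complex.isOpenMap_re _ ho).measure_pos _ (hne.image _)
  by_contra hcon
  have h4 : len (frontier V) = 0 := by
    rw [← nonpos_iff_eq_zero]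
    exact not_lt.1 hcon
  rw [show Measure.hausdorffMeasure 1 (frontier V) = 0 from h4, mul_zero] at h2
  exact absurd (lt_of_lt_of_le h3 ((measure_mono h1).trans h2)) (lt_irrefl _)

theorem len_frontier {C : ℝ} {m : ℤ} (h : GT C m) {z : ℂ} (hz : z ∈ FatouSet f₀) {k : ℕ}
    (hk : f₀^[k] z ∈ U m) :
    Bornology.IsBounded (FatouComponent f₀ z) ∧ 0 < len (frontier (FatouComponent f₀ z)) ∧
      len (frontier (FatouComponent f₀ z)) < ⊤ := by
  have hb := (dim_one h hz hk).1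
  refine ⟨hb, len_pos (component_isOpen f₀ z) ⟨z, mem_connectedComponentIn hz⟩ hb, ?_⟩
  have hcpt : IsCompact (frontier (FatouComponent f₀ z)) :=
    hb.isCompact_closure.of_isClosed_subset isClosed_frontier frontier_subset_closure
  refine hcpt.measure_lt_top_of_nhdsWithin fun x hx => ?_
  have hsub := frontier_sub hz hk
  obtain ⟨s, hs, hfin⟩ := len_local (f₀_differentiable.iterate k) (iter_deriv_ne k) x
    (Γ := frontier (U m)) (C := 4 * Real.pi) (by positivity) (fun s _ => len_Gamma h (hsub hx) s)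
  refine ⟨frontier (FatouComponent f₀ z) ∩ s, inter_mem_nhdsWithin _ hs, ?_⟩
  exact lt_of_le_of_lt (measure_mono (inter_subset_inter_left _ hsub)) hfin

end Pool.Agent.P8H70.WD
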