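import Mathlib
import Pool.Agent.P8H70.WD.Len2
import Pool.Agent.Y282.WD.Full
import Pool.Agent.Y514.WD.Sch

/-! The Fatou components of `f₀` which are mapped to a wandering domain that contains an integer have
no holes. -/

set_option autoImplicit false

open Filter Topology Metric Set

namespace Pool.Agent.P8H70.WD

open Pool.Agent.H384R2.Fatou Pool.Agent.H723R2.LSW Pool.Agent.Y282.WD

theorem iter_open (k : ℕ) {s : Set ℂ} (hs : IsOpen s) : IsOpen (f₀^[k] '' s) := by
  induction k with
  | zero => simpa using hs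
  | succ k ih =>
    have h : f₀^[k + 1] '' s = f₀ '' (f₀^[k] '' s) := by
      rw [← image_comp, Function.iterate_succ']
    rw [h]
    exact f₀_open _ ih

theorem full' {n : ℤ} (hw : Wild n) {z₀ : ℂ} {k : ℕ} (hz₀ : z₀ ∈ FatouSet f₀)
    (hk : f₀^[k] z₀ ∈ U n) {V : Set ℂ} (hVo : IsOpen V)
    (hVb : Bornology.IsBounded V) (hVf : frontier V ⊆ FatouComponent f₀ z₀) :
    V ⊆ FatouComponent f₀ z₀ := by
  have hmap : f₀^[k] '' FatouComponent f₀ z₀ ⊆ U n := by
    refine (component_map f₀_cont f₀_open hz₀ k).trans (le_of_eq ?_)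
    exact (connectedComponentIn_eq hk).symm
  have hfc : IsCompact (frontier V) :=
    hVb.isCompact_closure.of_isClosed_subset isClosed_frontier frontier_subset_closure
  have hfc' : IsCompact (f₀^[k] '' frontier V) := hfc.image (f₀_cont.iterate k)
  obtain ⟨M, hM⟩ := Pool.Agent.Y514.WD.sch n hw _ hfc' ((image_mono hVf).trans hmap)
  have hcl : ∀ᶠ j : ℕ in atTop, ∀ z ∈ closure V,
      ‖f₀^[j] (f₀^[k] z) - ((T^[j] n : ℤ) : ℂ)‖ ≤ M := by
    filter_upwards [hM] with j hj z hz
    have h1 := Complex.norm_le_of_forall_mem_frontier_norm_le hVb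
      (f := fun z => f₀^[j] (f₀^[k] z) - ((T^[j] n : ℤ) : ℂ))
      (((f₀_differentiable.iterate j).comp (f₀_differentiable.iterate k)).sub_const _).diffContOnCl
      (C := M) (fun w hw => hj _ ⟨w, hw, rfl⟩) hz
    exact h1
  have hVF : V ⊆ FatouSet f₀ := by
    intro z hz
    apply back_iter k
    obtain ⟨r, hr, hsub⟩ := Metric.isOpen_iff.1 (iter_open k hVo) _ ⟨z, hz, rfl⟩
    refine ⟨r, hr, near_normal' hw (M := M) ?_⟩
    filter_upwards [hcl] with j hj w hwr
    obtain ⟨y, hy, rfl⟩ := hsub hwr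
    exact hj y (subset_closure hy)
  have hcVF : closure V ⊆ FatouSet f₀ := by
    intro z hz
    by_cases h : z ∈ V
    · exact hVF h
    · apply connectedComponentIn_subset (FatouSet f₀) z₀
      apply hVf
      rw [frontier, hVo.interior_eq]
      exact ⟨hz, h⟩
  intro z hz
  by_contra hzU
  have hzW : z ∈ FatouComponent f₀ z := mem_connectedComponentIn (hVF hz)
  have hWo : IsOpen (FatouComponent f₀ z) := component_isOpen f₀ z
  have hWU : ∀ p, p ∈ FatouComponent f₀ z → p ∉ FatouComponent f₀ z₀ := by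
    intro p hpW hpU
    have e1 : FatouComponent f₀ z = FatouComponent f₀ p := connectedComponentIn_eq hpW
    have e2 : FatouComponent f₀ z₀ = FatouComponent f₀ p := connectedComponentIn_eq hpU
    apply hzU
    rw [e2, ← e1]; exact hzW
  have hWp : IsPreconnected (FatouComponent f₀ z) := isPreconnected_connectedComponentIn
  have hWV : FatouComponent f₀ z ⊆ V := by
    apply hWp.subset_of_closure_inter_subset hVo ⟨z, hzW, hz⟩
    rintro p ⟨hp1, hp2⟩
    by_contra hpV
    apply hWU p hp2
    apply hVf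
    rw [frontier, hVo.interior_eq]
    exact ⟨hp1, hpV⟩
  have hWb : Bornology.IsBounded (FatouComponent f₀ z) := hVb.subset hWV
  have hWne : FatouComponent f₀ z ≠ univ := by
    intro h
    rw [h] at hWb
    exact NormedSpace.unbounded_univ ℝ ℂ hWb
  obtain ⟨p, hp⟩ : (frontier (FatouComponent f₀ z)).Nonempty :=
    nonempty_frontier_iff.2 ⟨⟨z, hzW⟩, hWne⟩
  have hpc : p ∈ closure (FatouComponent f₀ z) := frontier_subset_closure hp
  have hpF : p ∈ FatouSet f₀ := hcVF (closure_mono hWV hpc)
  have hpp : p ∈ FatouComponent f₀ p := mem_connectedComponentIn hpF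
  obtain ⟨x, hx1, hx2⟩ := mem_closure_iff.1 hpc _ (component_isOpen f₀ p) hpp
  have e1 : FatouComponent f₀ p = FatouComponent f₀ x := connectedComponentIn_eq hx1
  have e2 : FatouComponent f₀ z = FatouComponent f₀ x := connectedComponentIn_eq hx2
  have hpW : p ∈ FatouComponent f₀ z := by rw [e2, ← e1]; exact hpp
  rw [frontier, hWo.interior_eq] at hp
  exact hp.2 hpW

end Pool.Agent.P8H70.WD
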